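import Pool.Agent.R965.EV.LilUp

/-!
Project EV: lower bound in the law of the iterated logarithm at almost every time (statement
`S_LILLOW` of `Pool.Agent.Y41.EV.StmD`).
-/

set_option autoImplicit false

namespace Pool.Agent.R965.EV

open MeasureTheory Filter Topology Pool.Agent.Y995.HG Pool.Agent.Y41.EV
open scoped ENNReal

theorem ll_scale {x y : ℝ} (hx : 0 < x) (hxy : x ≤ y) (hy : y ≤ Real.exp (-1)) :
    ll x ≤ (y / x) * ll y := by
  have hy0 : 0 < y := lt_of_lt_of_le hx hxy
  have hz : 1 ≤ y / x := by rw [le_div_iff₀ hx]; linarith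
  have ha : 1 ≤ Real.log (1 / y) := by
    rw [one_div, Real.log_inv]
    have := Real.log_le_log hy0 hy
    rw [Real.log_exp] at this
    linarith
  have hb : 0 ≤ Real.log (y / x) := Real.log_nonneg hz
  have e1 : Real.log (1 / x) = Real.log (1 / y) + Real.log (y / x) := by
    rw [← Real.log_mul (by positivity) (by positivity)]
    congr 1
    field_simp
  have e2 : Real.log (Real.log (1 / x)) ≤ Real.log (Real.log (1 / y)) + Real.log (y / x) := by
    rw [e1]
    have h1 : Real.log (1 / y) + Real.log (y / x) ≤ Real.log (1 / y) * (1 + Real.log (y / x)) := by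
      nlinarith
    have h2 : Real.log (Real.log (1 / y) + Real.log (y / x)) ≤
        Real.log (Real.log (1 / y) * (1 + Real.log (y / x))) :=
      Real.log_le_log (by linarith) h1
    rw [Real.log_mul (by linarith) (by linarith)] at h2
    have h3 : Real.log (1 + Real.log (y / x)) ≤ Real.log (y / x) := by
      have := Real.log_le_sub_one_of_pos (show 0 < 1 + Real.log (y / x) by linarith)
      linarith
    linarith
  have h4 : Real.log (y / x) ≤ y / x - 1 := Real.log_le_sub_one_of_pos (by positivity)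
  have h5 : 1 ≤ ll y := ll_ge y
  have h6 : Real.log (Real.log (1 / y)) ≤ ll y := le_max_right _ _
  have h7 : ll x ≤ ll y + (y / x - 1) := by
    unfold ll at *
    refine max_le (by linarith) ?_
    linarith
  nlinarith

theorem phi_mono {x y : ℝ} (hx : 0 ≤ x) (hxy : x ≤ y) (hy : y ≤ Real.exp (-1)) :
    phi x ≤ phi y := by
  rcases hx.eq_or_lt with h | hx
  · rw [← h, phi_zero]
    exact phi_nonneg (h ▸ hxy)
  have hy0 : 0 < y := lt_of_lt_of_le hx hxy
  have hz : 1 ≤ y / x := by rw [le_div_iff₀ hx]; linarith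
  have h1 := ll_scale hx hxy hy
  have hl := ll_pos y
  have h2 : ll x ^ (3/7 : ℝ) ≤ (y / x) ^ (4/7 : ℝ) * ll y ^ (3/7 : ℝ) := by
    calc ll x ^ (3/7 : ℝ) ≤ ((y / x) * ll y) ^ (3/7 : ℝ) :=
          Real.rpow_le_rpow (ll_pos x).le h1 (by norm_num)
      _ = (y / x) ^ (3/7 : ℝ) * ll y ^ (3/7 : ℝ) := Real.mul_rpow (by positivity) hl.le
      _ ≤ (y / x) ^ (4/7 : ℝ) * ll y ^ (3/7 : ℝ) := by
          refine mul_le_mul_of_nonneg_right ?_ (by positivity)
          exact Real.rpow_le_rpow_of_exponent_le hz (by norm_num)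
  unfold phi
  calc x ^ (4/7 : ℝ) * ll x ^ (3/7 : ℝ) ≤ x ^ (4/7 : ℝ) * ((y / x) ^ (4/7 : ℝ) * ll y ^ (3/7 : ℝ)) :=
        mul_le_mul_of_nonneg_left h2 (by positivity)
    _ = y ^ (4/7 : ℝ) * ll y ^ (3/7 : ℝ) := by
        rw [← mul_assoc, ← Real.mul_rpow hx.le (by positivity), mul_div_cancel₀ _ hx.ne']

/-- `phi` is small compared with the square root. -/
theorem phi_sqrt {h : ℝ} (h0 : 0 < h) (h1 : h ≤ (1/13) ^ 28) : phi h ≤ h ^ (1/2 : ℝ) := by
  have hle : h ≤ 1 := h1.trans (by norm_num)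
  have hi : 1 ≤ 1 / h := by rw [le_div_iff₀ h0]; linarith
  have hL : 0 ≤ Real.log (1 / h) := Real.log_nonneg hi
  have e1 : Real.log (1 / h) ≤ (1 / h) ^ (1/12 : ℝ) / (1/12) :=
    Real.log_le_rpow_div (by positivity) (by norm_num)
  have e2 : 1 ≤ (1 / h) ^ (1/12 : ℝ) := Real.one_le_rpow hi (by norm_num)
  have e3 : ll h ≤ 13 * (1 / h) ^ (1/12 : ℝ) := by
    unfold ll
    refine max_le (by linarith) ?_
    rcases hL.eq_or_lt with h2 | h2
    · rw [← h2, Real.log_zero]; linarith
    · have := Real.log_le_sub_one_of_pos h2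
      rw [div_eq_mul_inv] at e1
      norm_num at e1
      norm_num at this ⊢
      norm_num at e2
      linarith
  have e4 : ll h ^ (3/7 : ℝ) ≤ 13 * (1 / h) ^ (1/28 : ℝ) := by
    calc ll h ^ (3/7 : ℝ) ≤ (13 * (1 / h) ^ (1/12 : ℝ)) ^ (3/7 : ℝ) :=
          Real.rpow_le_rpow (ll_pos h).le e3 (by norm_num)
      _ = 13 ^ (3/7 : ℝ) * (1 / h) ^ (1/28 : ℝ) := by
          rw [Real.mul_rpow (by norm_num) (by positivity), ← Real.rpow_mul (by positivity)]
          norm_num
      _ ≤ 13 * (1 / h) ^ (1/28 : ℝ) := by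
          refine mul_le_mul_of_nonneg_right ?_ (by positivity)
          have := Real.rpow_le_rpow_of_exponent_le (show (1:ℝ) ≤ 13 by norm_num)
            (show (3/7 : ℝ) ≤ 1 by norm_num)
          rwa [Real.rpow_one] at this
  have e5 : h ^ (1/28 : ℝ) ≤ 1 / 13 := by
    have := Real.rpow_le_rpow h0.le h1 (show (0:ℝ) ≤ 1/28 by norm_num)
    rw [← Real.rpow_natCast, ← Real.rpow_mul (by norm_num)] at this
    norm_num at this
    norm_num
    exact this
  have e6 : (1 / h) ^ (1/28 : ℝ) = h ^ (-(1/28) : ℝ) := by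
    rw [one_div, Real.inv_rpow h0.le, Real.rpow_neg h0.le]
  have e7 : h ^ (4/7 : ℝ) * h ^ (-(1/28) : ℝ) = h ^ (1/2 : ℝ) * h ^ (1/28 : ℝ) := by
    rw [← Real.rpow_add h0, ← Real.rpow_add h0]
    norm_num
  unfold phi
  calc h ^ (4/7 : ℝ) * ll h ^ (3/7 : ℝ) ≤ h ^ (4/7 : ℝ) * (13 * (1 / h) ^ (1/28 : ℝ)) :=
        mul_le_mul_of_nonneg_left e4 (by positivity)
    _ = 13 * (h ^ (1/2 : ℝ) * h ^ (1/28 : ℝ)) := by rw [e6, ← e7]; ring
    _ ≤ 13 * (h ^ (1/2 : ℝ) * (1 / 13)) := by
        refine mul_le_mul_of_nonneg_left ?_ (by norm_num)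
        exact mul_le_mul_of_nonneg_left e5 (by positivity)
    _ = h ^ (1/2 : ℝ) := by ring

/-- `psi` of a small multiple of `phi` -/
theorem psi_phi {d : ℝ} (hd0 : 0 < d) (hd1 : d ≤ 1) {h : ℝ} (h0 : 0 ≤ h)
    (h1 : h ≤ (1/13) ^ 28) : psi (d * phi h) ≤ 2 * d * h := by
  rcases h0.eq_or_lt with h2 | h0
  · rw [← h2, phi_zero, mul_zero, psi_zero, mul_zero]
  have hle : h ≤ 1 := h1.trans (by norm_num)
  have hp : 0 < phi h := by
    have := ll_pos h
    unfold phi
    positivity
  have hs := phi_sqrt h0 h1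
  have hz : 0 < d * phi h := by positivity
  have hz1 : d * phi h ≤ h ^ (1/2 : ℝ) := by
    calc d * phi h ≤ 1 * phi h := mul_le_mul_of_nonneg_right hd1 hp.le
      _ = phi h := one_mul _
      _ ≤ _ := hs
  have hr1 : h ^ (1/2 : ℝ) ≤ 1 := Real.rpow_le_one h0.le hle (by norm_num)
  have hi : 1 ≤ 1 / h := by rw [le_div_iff₀ h0]; linarith
  have hL : 0 ≤ Real.log (1 / h) := Real.log_nonneg hi
  -- lower bound for the logarithm
  have e1 : ll h / 2 ≤ ll (d * phi h) := by
    have a1 : ll (h ^ (1/2 : ℝ)) ≤ ll (d * phi h) := ll_anti hz hz1 hr1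
    have a2 : ll h / 2 ≤ ll (h ^ (1/2 : ℝ)) := by
      have b1 : Real.log (1 / h ^ (1/2 : ℝ)) = Real.log (1 / h) / 2 := by
        have c1 : Real.log (1 / h ^ (1/2 : ℝ)) = -((1/2) * Real.log h) := by
          rw [← Real.log_rpow h0, one_div, Real.log_inv]
        have c2 : Real.log (1 / h) = -Real.log h := by
          rw [one_div, Real.log_inv]
        rw [c1, c2]
        ring
      have b2 := ll_ge (h ^ (1/2 : ℝ))
      by_cases hbig : ll h ≤ 2
      · linarith
      · push Not at hbig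
        have b3 : ll h = Real.log (Real.log (1 / h)) := by
          unfold ll at hbig ⊢
          rcases le_total (1:ℝ) (Real.log (Real.log (1 / h))) with h | h
          · exact max_eq_right h
          · rw [max_eq_left h] at hbig; linarith
        have b4 : Real.log (1 / h) ≠ 0 := by
          intro h9
          rw [b3, h9, Real.log_zero] at hbig
          linarith
        have b5 : Real.log (Real.log (1 / h ^ (1/2 : ℝ))) =
            Real.log (Real.log (1 / h)) - Real.log 2 := by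
          rw [b1, Real.log_div b4 (by norm_num)]
        have b6 : Real.log (Real.log (1 / h ^ (1/2 : ℝ))) ≤ ll (h ^ (1/2 : ℝ)) :=
          le_max_right _ _
        have b7 := Real.log_two_lt_d9
        rw [b5, ← b3] at b6
        linarith
    exact a2.trans a1
  have hl := ll_pos h
  have hl2 := ll_pos (d * phi h)
  have e2 : (d * phi h) ^ (7/4 : ℝ) = d ^ (7/4 : ℝ) * (h * ll h ^ (3/4 : ℝ)) := by
    rw [Real.mul_rpow hd0.le hp.le]
    congr 1
    unfold phi
    rw [Real.mul_rpow (by positivity) (by positivity), ← Real.rpow_mul h0.le,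
      ← Real.rpow_mul hl.le]
    norm_num
  have e3 : d ^ (7/4 : ℝ) ≤ d := by
    have := Real.rpow_le_rpow_of_exponent_ge hd0 hd1 (show (1:ℝ) ≤ 7/4 by norm_num)
    rwa [Real.rpow_one] at this
  have e4 : ll h ^ (3/4 : ℝ) ≤ 2 * ll (d * phi h) ^ (3/4 : ℝ) := by
    calc ll h ^ (3/4 : ℝ) ≤ (2 * ll (d * phi h)) ^ (3/4 : ℝ) :=
          Real.rpow_le_rpow hl.le (by linarith) (by norm_num)
      _ = 2 ^ (3/4 : ℝ) * ll (d * phi h) ^ (3/4 : ℝ) := Real.mul_rpow (by norm_num) hl2.le
      _ ≤ 2 * ll (d * phi h) ^ (3/4 : ℝ) := by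
          refine mul_le_mul_of_nonneg_right ?_ (by positivity)
          have := Real.rpow_le_rpow_of_exponent_le (show (1:ℝ) ≤ 2 by norm_num)
            (show (3/4 : ℝ) ≤ 1 by norm_num)
          rwa [Real.rpow_one] at this
  unfold psi
  rw [div_le_iff₀ (by positivity), e2]
  calc d ^ (7/4 : ℝ) * (h * ll h ^ (3/4 : ℝ)) ≤
        d * (h * (2 * ll (d * phi h) ^ (3/4 : ℝ))) := by gcongr
    _ = 2 * d * h * ll (d * phi h) ^ (3/4 : ℝ) := by ring

/-- Density points. -/
theorem density (B : Set unitInterval) (hB : volume B ≠ 0) {κ : ℝ} (hκ : 0 < κ) (hκ1 : κ < 1) :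
    ∃ s t : unitInterval, s < t ∧
      ENNReal.ofReal ((1 - κ) * ((t : ℝ) - s)) ≤ volume (B ∩ Set.Icc s t) := by
  have hB1 : volume (B \ {1}) ≠ 0 := by
    rw [measure_sdiff_null (measure_singleton _)]
    exact hB
  obtain ⟨S, hS⟩ : ∃ S : Set ℝ, S = Subtype.val '' (B \ {1}) := ⟨_, rfl⟩
  have hS0 : volume S ≠ 0 := by
    rw [hS, ← unitInterval.volume_apply]
    exact hB1
  obtain ⟨x, hx, hlim⟩ := Measure.exists_mem_of_measure_ne_zero_of_ae hS0
    (VitaliFamily.ae_tendsto_measure_inter_div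
      (IsUnifLocDoublingMeasure.vitaliFamily (volume : Measure ℝ) 1) S)
  have hlim2 := hlim.comp (Real.tendsto_Icc_vitaliFamily_right x)
  have hκ2 : ENNReal.ofReal (1 - κ) < 1 := by
    rw [← ENNReal.ofReal_one]
    exact (ENNReal.ofReal_lt_ofReal_iff (by norm_num)).2 (by linarith)
  have hev := hlim2.eventually (lt_mem_nhds hκ2)
  rw [hS] at hx
  obtain ⟨s, ⟨hsB, hs1⟩, rfl⟩ := hx
  have hslt : (s : ℝ) < 1 := lt_of_le_of_ne s.2.2 fun h => hs1 (Subtype.ext h)
  have hev2 : ∀ᶠ y in 𝓝[>] (s : ℝ), y ∈ Set.Ioo (s : ℝ) 1 := Ioo_mem_nhdsGT hslt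
  obtain ⟨y, hy1, hy2, hy3⟩ := (hev.and hev2).exists
  simp only [Function.comp] at hy1
  refine ⟨s, ⟨y, s.2.1.trans hy2.le, hy3.le⟩, hy2, ?_⟩
  have h1 : volume (S ∩ Set.Icc (s : ℝ) y) ≤
      volume (B ∩ Set.Icc s ⟨y, s.2.1.trans hy2.le, hy3.le⟩) := by
    rw [unitInterval.volume_apply]
    refine measure_mono ?_
    rintro z ⟨hz1, hz2⟩
    rw [hS] at hz1
    obtain ⟨w, ⟨hw, -⟩, rfl⟩ := hz1
    exact ⟨w, ⟨hw, hz2.1, hz2.2⟩, rfl⟩
  refine le_trans ?_ h1
  rw [Real.volume_Icc, ENNReal.lt_div_iff_mul_lt (Or.inl (by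
    rw [Ne, ENNReal.ofReal_eq_zero]; push Not; linarith)) (Or.inl ENNReal.ofReal_ne_top)] at hy1
  refine le_trans (le_of_eq ?_) hy1.le
  rw [ENNReal.ofReal_mul (by linarith)]

theorem lillow : S_LILLOW := by
  intro c C hc hC
  obtain ⟨c', hc'⟩ : ∃ c' : ℝ, c' = min (1/2) (c / 16) := ⟨_, rfl⟩
  have hc'0 : 0 < c' := by rw [hc']; exact lt_min (by norm_num) (by positivity)
  have hc'1 : 2 * c' ≤ 1 := by
    have : c' ≤ 1/2 := by rw [hc']; exact min_le_left _ _
    linarith
  have hc'2 : 4 * c' ≤ c / 4 := by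
    have : c' ≤ c / 16 := by rw [hc']; exact min_le_right _ _
    linarith
  refine ⟨c', hc'0, ?_⟩
  intro f T hT hU hL
  obtain ⟨κ, hκ⟩ : ∃ κ : ℝ, κ = min (1/2) (c / (16 * C)) := ⟨_, rfl⟩
  have hκ0 : 0 < κ := by rw [hκ]; exact lt_min (by norm_num) (by positivity)
  have hκ1 : κ < 1 := by
    have : κ ≤ 1/2 := by rw [hκ]; exact min_le_left _ _
    linarith
  have hκ2 : C * κ ≤ c / 16 := by
    have h1 : κ ≤ c / (16 * C) := by rw [hκ]; exact min_le_right _ _
    calc C * κ ≤ C * (c / (16 * C)) := mul_le_mul_of_nonneg_left h1 hC.le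
      _ = c / 16 := by field_simp
  -- the bad times
  have hBk : ∀ k : ℕ, volume {t : unitInterval | ∀ s : unitInterval,
      |(s : ℝ) - t| < 1 / ((k : ℝ) + 1) → dist (f s) (f t) ≤ c' * phi (T * |(s : ℝ) - t|)} = 0 := by
    intro k
    by_contra hB
    obtain ⟨B, hBd⟩ : ∃ B : Set unitInterval, B = {t : unitInterval | ∀ s : unitInterval,
      |(s : ℝ) - t| < 1 / ((k : ℝ) + 1) → dist (f s) (f t) ≤ c' * phi (T * |(s : ℝ) - t|)} :=
      ⟨_, rfl⟩
    rw [← hBd] at hB
    obtain ⟨s, t, hst, hvol⟩ := density B hB hκ0 hκ1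
    have hst' : (s : ℝ) < t := hst
    have hlen : 0 < T * ((t : ℝ) - s) := mul_pos hT (by linarith)
    obtain ⟨η1, hη1, hUP⟩ := hU (c / 16 * (T * ((t : ℝ) - s))) (by positivity)
    -- the mesh
    obtain ⟨η, hη⟩ : ∃ η : ℝ, η = min (min η1 (1 / (2 * ((k : ℝ) + 1)))) ((1/13) ^ 28 / T) :=
      ⟨_, rfl⟩
    have hη0 : 0 < η := by
      rw [hη]
      exact lt_min (lt_min hη1 (by positivity)) (by positivity)
    have hηa : η ≤ η1 := by rw [hη]; exact (min_le_left _ _).trans (min_le_left _ _)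
    have hηb : η < 1 / ((k : ℝ) + 1) := by
      have h1 : η ≤ 1 / (2 * ((k : ℝ) + 1)) := by
        rw [hη]; exact (min_le_left _ _).trans (min_le_right _ _)
      refine lt_of_le_of_lt h1 ?_
      exact one_div_lt_one_div_of_lt (by positivity) (by nlinarith [(Nat.cast_nonneg k : (0:ℝ) ≤ k)])
    have hηc : T * η ≤ (1/13) ^ 28 := by
      have h1 : η ≤ (1/13) ^ 28 / T := by rw [hη]; exact min_le_right _ _
      calc T * η ≤ T * ((1/13) ^ 28 / T) := mul_le_mul_of_nonneg_left h1 hT.le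
        _ = (1/13) ^ 28 := by field_simp
    have hexp : ((1:ℝ)/13) ^ 28 ≤ Real.exp (-1) := by
      have h1 : Real.exp 1 < 3 := by have := Real.exp_one_lt_d9; linarith
      rw [Real.exp_neg]
      calc ((1:ℝ)/13) ^ 28 ≤ 3⁻¹ := by norm_num
        _ ≤ (Real.exp 1)⁻¹ := inv_anti₀ (Real.exp_pos _) h1.le
    obtain ⟨n, τ, hm, h0, hn, hmesh, hsum⟩ := hL s t hst.le η hη0 (c / 2 * (T * ((t : ℝ) - s)))
      (by
        have : 0 < c * (T * ((t : ℝ) - s)) := by positivity
        linarith)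
    have hτ : ∀ i, (τ i : ℝ) ≤ τ (i + 1) := fun i => hm (Nat.le_succ i)
    have hn1 : 1 ≤ n := by
      rcases Nat.eq_zero_or_pos n with h | h
      · subst h
        rw [h0] at hn
        exact absurd hn hst.ne
      · exact h
    classical
    obtain ⟨P, hP⟩ : ∃ P : ℕ → Prop, P = fun i => (Set.Icc (τ i) (τ (i + 1)) ∩ B).Nonempty :=
      ⟨_, rfl⟩
    have htel : ∑ i ∈ Finset.range n, ((τ (i + 1) : ℝ) - τ i) = (t : ℝ) - s := by
      rw [Finset.sum_range_sub (fun i => (τ i : ℝ)), h0, hn]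
    -- pieces with a bad time
    have hA : ∑ i ∈ (Finset.range n).filter P, psi (dist (f (τ i)) (f (τ (i + 1)))) ≤
        c / 4 * (T * ((t : ℝ) - s)) := by
      have h1 : ∀ i ∈ (Finset.range n).filter P, psi (dist (f (τ i)) (f (τ (i + 1)))) ≤
          c / 4 * (T * ((τ (i + 1) : ℝ) - τ i)) := by
        intro i hi
        obtain ⟨hi1, hi2⟩ := Finset.mem_filter.1 hi
        rw [hP] at hi2
        obtain ⟨u, ⟨hu1, hu2⟩, huB⟩ := hi2
        have hu1' : (τ i : ℝ) ≤ u := hu1
        have hu2' : (u : ℝ) ≤ τ (i + 1) := hu2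
        have hmi := hmesh i (Finset.mem_range.1 hi1)
        rw [hBd] at huB
        have hh0 : 0 ≤ T * ((τ (i + 1) : ℝ) - τ i) := mul_nonneg hT.le (by linarith)
        have hh1 : T * ((τ (i + 1) : ℝ) - τ i) ≤ (1/13) ^ 28 :=
          (mul_le_mul_of_nonneg_left hmi hT.le).trans hηc
        have k1 : |(τ i : ℝ) - u| ≤ (τ (i + 1) : ℝ) - τ i := by
          rw [abs_le]; constructor <;> linarith
        have k2 : |(τ (i + 1) : ℝ) - u| ≤ (τ (i + 1) : ℝ) - τ i := by
          rw [abs_le]; constructor <;> linarith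
        have g1 : dist (f (τ i)) (f u) ≤ c' * phi (T * ((τ (i + 1) : ℝ) - τ i)) := by
          refine (huB (τ i) (by linarith)).trans ?_
          refine mul_le_mul_of_nonneg_left ?_ hc'0.le
          exact phi_mono (by positivity) (mul_le_mul_of_nonneg_left k1 hT.le) (hh1.trans hexp)
        have g2 : dist (f (τ (i + 1))) (f u) ≤ c' * phi (T * ((τ (i + 1) : ℝ) - τ i)) := by
          refine (huB (τ (i + 1)) (by linarith)).trans ?_
          refine mul_le_mul_of_nonneg_left ?_ hc'0.le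
          exact phi_mono (by positivity) (mul_le_mul_of_nonneg_left k2 hT.le) (hh1.trans hexp)
        have g3 : dist (f (τ i)) (f (τ (i + 1))) ≤
            (2 * c') * phi (T * ((τ (i + 1) : ℝ) - τ i)) := by
          have := dist_triangle_right (f (τ i)) (f (τ (i + 1))) (f u)
          linarith
        have g4 : (2 * c') * phi (T * ((τ (i + 1) : ℝ) - τ i)) ≤ 1 := by
          have p1 := phi_nonneg hh0
          have p2 : phi (T * ((τ (i + 1) : ℝ) - τ i)) ≤ 1 := by
            rcases hh0.eq_or_lt with h | h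
            · rw [← h, phi_zero]; norm_num
            · refine (phi_sqrt h hh1).trans ?_
              exact Real.rpow_le_one hh0 (hh1.trans (by norm_num)) (by norm_num)
          nlinarith
        have g5 := psi_mono dist_nonneg g3 g4
        have g6 := psi_phi (show 0 < 2 * c' by positivity) hc'1 hh0 hh1
        refine g5.trans (g6.trans ?_)
        have : 2 * (2 * c') ≤ c / 4 := by linarith
        exact mul_le_mul_of_nonneg_right this hh0
      refine (Finset.sum_le_sum h1).trans ?_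
      rw [← Finset.mul_sum, ← Finset.mul_sum]
      refine mul_le_mul_of_nonneg_left (mul_le_mul_of_nonneg_left ?_ hT.le) (by positivity)
      rw [← htel]
      refine Finset.sum_le_sum_of_subset_of_nonneg (Finset.filter_subset _ _) fun i _ _ => ?_
      have := hτ i
      linarith
    -- pieces without bad times are short
    have hshort : ∑ i ∈ (Finset.range n).filter (fun i => ¬ P i), ((τ (i + 1) : ℝ) - τ i) ≤
        κ * ((t : ℝ) - s) := by
      have hcov : B ∩ Set.Icc s t ⊆
          ⋃ i ∈ (Finset.range n).filter P, Set.Icc (τ i) (τ (i + 1)) := by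
        rintro u ⟨huB, hu⟩
        obtain ⟨i, hi, h1, h2⟩ := mem_piece τ n hn1 u (by rw [h0]; exact hu.1)
          (by rw [hn]; exact hu.2)
        simp only [Set.mem_iUnion]
        refine ⟨i, Finset.mem_filter.2 ⟨Finset.mem_range.2 hi, ?_⟩, h1, h2⟩
        rw [hP]
        exact ⟨u, ⟨h1, h2⟩, huB⟩
      have hvol2 : volume (B ∩ Set.Icc s t) ≤ ENNReal.ofReal
          (∑ i ∈ (Finset.range n).filter P, ((τ (i + 1) : ℝ) - τ i)) := by
        refine (measure_mono hcov).trans ((measure_biUnion_finset_le _ _).trans (le_of_eq ?_))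
        rw [ENNReal.ofReal_sum_of_nonneg fun i _ => by
          have := hτ i
          linarith]
        exact Finset.sum_congr rfl fun i _ => unitInterval.volume_Icc _ _
      have h3 := hvol.trans hvol2
      have h4 : (1 - κ) * ((t : ℝ) - s) ≤
          ∑ i ∈ (Finset.range n).filter P, ((τ (i + 1) : ℝ) - τ i) := by
        rwa [ENNReal.ofReal_le_ofReal_iff (Finset.sum_nonneg fun i _ => by
          have := hτ i
          linarith)] at h3
      have h5 := Finset.sum_filter_add_sum_filter_not (Finset.range n) P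
        (fun i => (τ (i + 1) : ℝ) - τ i)
      rw [htel] at h5
      linarith
    have hBsum : ∑ i ∈ (Finset.range n).filter (fun i => ¬ P i),
        psi (dist (f (τ i)) (f (τ (i + 1)))) ≤
        C * T * (κ * ((t : ℝ) - s)) + c / 16 * (T * ((t : ℝ) - s)) := by
      obtain ⟨e, he⟩ : ∃ e : ℕ → unitInterval, e = fun i => if P i then τ i else τ (i + 1) :=
        ⟨_, rfl⟩
      have hle : ∀ i, τ i ≤ e i ∧ e i ≤ τ (i + 1) := by
        intro i
        rw [he]
        simp only
        split_ifs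
        · exact ⟨le_rfl, hm (Nat.le_succ i)⟩
        · exact ⟨hm (Nat.le_succ i), le_rfl⟩
      have h1 := hUP n τ e (fun i hi => ⟨(hle i).1, by
        have h2 : (e i : ℝ) ≤ τ (i + 1) := (hle i).2
        have := hmesh i hi
        linarith⟩) (fun i j hij _ => (hle i).2.trans (hm hij))
      have h2 : ∑ i ∈ (Finset.range n).filter (fun i => ¬ P i),
          psi (dist (f (τ i)) (f (τ (i + 1)))) ≤
          ∑ i ∈ Finset.range n, psi (dist (f (τ i)) (f (e i))) := by
        rw [← Finset.sum_filter_add_sum_filter_not (Finset.range n) P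
          (fun i => psi (dist (f (τ i)) (f (e i))))]
        have h3 : 0 ≤ ∑ i ∈ (Finset.range n).filter P, psi (dist (f (τ i)) (f (e i))) :=
          Finset.sum_nonneg fun i _ => psi_nonneg dist_nonneg
        have h4 : ∑ i ∈ (Finset.range n).filter (fun i => ¬ P i),
            psi (dist (f (τ i)) (f (τ (i + 1)))) =
            ∑ i ∈ (Finset.range n).filter (fun i => ¬ P i), psi (dist (f (τ i)) (f (e i))) := by
          refine Finset.sum_congr rfl fun i hi => ?_
          rw [he]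
          simp only
          rw [if_neg (Finset.mem_filter.1 hi).2]
        rw [h4]
        linarith
      have h5 : ∑ i ∈ Finset.range n, ((e i : ℝ) - τ i) ≤
          ∑ i ∈ (Finset.range n).filter (fun i => ¬ P i), ((τ (i + 1) : ℝ) - τ i) := by
        rw [Finset.sum_filter]
        refine Finset.sum_le_sum fun i _ => ?_
        rw [he]
        simp only
        by_cases hPi : P i
        · simp [hPi]
        · simp [hPi]
      have h6 : C * T * ∑ i ∈ Finset.range n, ((e i : ℝ) - τ i) ≤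
          C * T * (κ * ((t : ℝ) - s)) :=
        mul_le_mul_of_nonneg_left (h5.trans hshort) (by positivity)
      linarith
    rw [← Finset.sum_filter_add_sum_filter_not (Finset.range n) P] at hsum
    have hfin : C * T * (κ * ((t : ℝ) - s)) ≤ c / 16 * (T * ((t : ℝ) - s)) := by
      have : C * T * (κ * ((t : ℝ) - s)) = C * κ * (T * ((t : ℝ) - s)) := by ring
      rw [this]
      exact mul_le_mul_of_nonneg_right hκ2 hlen.le
    have hpos : 0 < c * (T * ((t : ℝ) - s)) := by positivity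
    linarith
  -- conclusion
  rw [ae_iff]
  refine measure_mono_null ?_ (measure_iUnion_null hBk)
  intro t ht
  simp only [Set.mem_ofPred_eq, not_frequently, not_lt] at ht
  rw [Metric.eventually_nhds_iff] at ht
  obtain ⟨ε, hε, h⟩ := ht
  obtain ⟨k, hk⟩ := exists_nat_one_div_lt hε
  rw [Set.mem_iUnion]
  refine ⟨k, fun s hs => h ?_⟩
  have e : dist s t = |(s : ℝ) - t| := rfl
  rw [e]
  linarith

end Pool.Agent.R965.EV
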