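import Pool.Agent.R965.EV.Ae
import Pool.Agent.Y995.TP.FastTop

/-!
Project EV: all inputs put together (nothing is assumed).
-/

set_option autoImplicit false

namespace Pool.Agent.R965.EV

open H974 Finset H342P H984P H984N Pool.Agent.Y985.ME Pool.Agent.Y995.FS Pool.Agent.Y995.HG
open Pool.Agent.Y41.EV
open MeasureTheory Filter Topology
open scoped ENNReal NNReal

theorem dep_cont (R : Rect) : Continuous (dep R) := by
  unfold dep
  fun_prop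

/-- Exact variation and the law of the iterated logarithm at almost every time. -/
theorem ev_top : ∃ c C c' C' : ℝ, 0 < c ∧ 0 < C ∧ 0 < c' ∧ 0 < C' ∧ ∀ R : Rect,
    (∀ δ : ℕ → ℝ, (∀ i, 0 < δ i) → Tendsto δ atTop (𝓝 0) →
      ∃ φ : ℕ → ℕ, StrictMono φ ∧ ∃ μ : ProbabilityMeasure X,
        Tendsto (fun i => R.law (δ (φ i))) atTop (𝓝 μ)) ∧
    ∀ δ : ℕ → ℝ, (∀ i, 0 < δ i) → Tendsto δ atTop (𝓝 0) → ∀ μ : ProbabilityMeasure X,
      Tendsto (fun i => R.law (δ i)) atTop (𝓝 μ) →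
      ∀ᵐ p ∂(μ : Measure X), 0 < p.2 ∧ UPF p.1 p.2 C ∧ LOF p.1 p.2 c ∧
        (∀ᵐ t : unitInterval, ∀ᶠ s : unitInterval in 𝓝 t,
          dist (p.1 s) (p.1 t) ≤ C' * phi (p.2 * |(s : ℝ) - t|)) ∧
        (∀ᵐ t : unitInterval, ∃ᶠ s : unitInterval in 𝓝 t,
          c' * phi (p.2 * |(s : ℝ) - t|) < dist (p.1 s) (p.1 t)) := by
  obtain ⟨⟨c, hc, hL⟩, ⟨C, hC, hU⟩, C2, hC2, hA⟩ := inputs
  have hfm : FM := Pool.Agent.Y490.EV.fm2 Pool.Agent.Y941.EV.t_FM1 Pool.Agent.Y490.EV.fm2p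
    s_blk s_fm C hC hU
  obtain ⟨θ, K2, A0, hθ, hK2, hA0, hlat⟩ :=
    Pool.Agent.Y758.EV.latv manyp Pool.Agent.Z864.EV.badvm c C hc hC hL hU
  obtain ⟨a, B, ha, hB, hft⟩ := Pool.Agent.Y858.EV.ftlat hfm Pool.Agent.Y988.EV.ftm
  obtain ⟨K, hK, hftae⟩ := ftae Pool.Agent.Y287.EV.ftopen a B ha hB
  obtain ⟨c0, hc0, hlow⟩ := lowbulk θ K2 A0 hθ hK2 hA0
  obtain ⟨Cu, hCu, hup⟩ := updet K hK
  obtain ⟨Cl, hCl, hlu⟩ := lilup K hK
  obtain ⟨cl, hcl, hll⟩ := lillow c0 Cu hc0 hCu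
  refine ⟨c0, Cu, cl, Cl, hc0, hCu, hcl, hCl, fun R => ?_⟩
  obtain ⟨-, h2, h3⟩ := final_of hc hC hL hU hC2 hA R
  refine ⟨h2, fun δ hδ hlim μ hμ => ?_⟩
  obtain ⟨A, hA1, hlatR⟩ := hlat R
  obtain ⟨A', y0, hA', hy0, hftR⟩ := hft R
  filter_upwards [h3 δ hδ hlim μ hμ,
    aev Pool.Agent.Y287.EV.badvo sc3 θ K2 A0 hθ hK2 hA0 R A hA1 hlatR δ hδ hlim μ hμ,
    zero R δ hδ hlim μ hμ,
    hftae R A' y0 hA' hy0 hftR δ hδ hlim μ hμ] with p g1 g2 g3 g4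
  have hLO : LOF p.1 p.2 c0 := by
    refine lowall p.1 p.2 c0 (fun u => dep R (p.1 u)) ((dep_cont R).comp p.1.continuous) g1.1 hc0
      g3 ?_
    intro k s t hst hdep η hη
    refine hlow p.1 p.2 (Set.Icc s t) g1.1 ?_ s t hst le_rfl η hη
    filter_upwards [g2 k] with i hi s' t' hI hlen
    by_contra hcon
    apply hi
    refine ⟨s', t', fun u hu1 hu2 => hdep u (hI ⟨hu1, hu2⟩), hlen, hcon⟩
  have hUP := hup p g1.1 g4
  exact ⟨g1.1, hUP, hLO, hlu p g1.1 g4, hll p.1 p.2 g1.1 hUP hLO⟩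

/-- from the upper bound for the `ψ`-sums to the `ψ`-variation -/
theorem Vpsi_le {f : C(unitInterval, ℂ)} {T C : ℝ} (hT : 0 < T) (hC : 0 < C) (h : UPF f T C)
    {s t : unitInterval} (hst : s ≤ t) : Vpsi f s t ≤ ENNReal.ofReal (C * T * ((t : ℝ) - s)) := by
  have hst' : (s : ℝ) ≤ t := hst
  refine le_of_forall_pos_le_add ?_
  intro ε hε
  by_cases hεt : ε = ⊤
  · rw [hεt, add_top]; exact le_top
  have hε0 : 0 < ε.toReal := ENNReal.toReal_pos hε.ne' hεt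
  obtain ⟨η, hη, h1⟩ := h ε.toReal hε0
  unfold Vpsi
  refine iInf_le_of_le η (iInf_le_of_le hη ?_)
  refine iSup_le fun n => iSup_le fun τ => iSup_le fun hτ => ?_
  obtain ⟨hm, h0, hn, hmesh⟩ := hτ
  have h2 := h1 n τ (fun i => τ (i + 1)) (fun i hi => ⟨hm (Nat.le_succ i), hmesh i hi⟩)
    (fun i j hij _ => hm hij)
  have h3 : ∑ i ∈ Finset.range n, ((τ (i + 1) : ℝ) - τ i) = (t : ℝ) - s := by
    rw [Finset.sum_range_sub (fun i => (τ i : ℝ)), h0, hn]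
  rw [h3] at h2
  refine (ENNReal.ofReal_le_ofReal h2).trans ?_
  rw [ENNReal.ofReal_add (mul_nonneg (by positivity) (by linarith)) hε0.le,
    ENNReal.ofReal_toReal hεt]

/-- from the lower bound for the `ψ`-sums to the `ψ`-variation -/
theorem le_Vpsi {f : C(unitInterval, ℂ)} {T c : ℝ} (h : LOF f T c)
    {s t : unitInterval} (hst : s ≤ t) : ENNReal.ofReal (c * T * ((t : ℝ) - s)) ≤ Vpsi f s t := by
  unfold Vpsi
  refine le_iInf fun η => le_iInf fun hη => ?_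
  refine le_of_forall_lt fun y hy => ?_
  have hyt : y ≠ ⊤ := (hy.trans ENNReal.ofReal_lt_top).ne
  have h1 : y.toReal < c * T * ((t : ℝ) - s) := by
    rw [← ENNReal.ofReal_toReal hyt] at hy
    exact (ENNReal.ofReal_lt_ofReal_iff_of_nonneg ENNReal.toReal_nonneg).1 hy
  obtain ⟨y', hy1, hy2⟩ := exists_between h1
  obtain ⟨n, τ, hm, h0, hn, hmesh, hsum⟩ := h s t hst η hη y' hy2
  refine lt_of_lt_of_le ?_ (le_iSup_of_le n (le_iSup_of_le τ (le_iSup_of_le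
    ⟨hm, h0, hn, hmesh⟩ (ENNReal.ofReal_le_ofReal hsum))))
  rw [← ENNReal.ofReal_toReal hyt]
  exact (ENNReal.ofReal_lt_ofReal_iff_of_nonneg ENNReal.toReal_nonneg).2 hy1

end Pool.Agent.R965.EV
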