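import Pool.Agent.R965.EV.LilLow

/-!
Project EV: the `7/4`-variation is infinite (statement `S_P74` of `Pool.Agent.Y41.EV.StmD`).
-/

set_option autoImplicit false

namespace Pool.Agent.R965.EV

open MeasureTheory Filter Topology Pool.Agent.Y995.HG Pool.Agent.Y41.EV
open scoped ENNReal

theorem ll_tendsto : Tendsto ll (𝓝[>] 0) atTop := by
  have h1 : Tendsto (fun x : ℝ => Real.log (Real.log (1 / x))) (𝓝[>] 0) atTop := by
    have h2 : Tendsto (fun x : ℝ => 1 / x) (𝓝[>] 0) atTop := by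
      simpa [one_div] using tendsto_inv_nhdsGT_zero (𝕜 := ℝ)
    exact Real.tendsto_log_atTop.comp (Real.tendsto_log_atTop.comp h2)
  refine tendsto_atTop_mono (fun x => ?_) h1
  exact le_max_right _ _

theorem p74 : S_P74 := by
  intro f T c hT hc hL s t hst η M hη
  have hst' : (s : ℝ) < t := hst
  have hlen : 0 < c / 2 * (T * ((t : ℝ) - s)) := by
    have : 0 < T * ((t : ℝ) - s) := mul_pos hT (by linarith)
    positivity
  obtain ⟨L, hLd⟩ : ∃ L : ℝ, L = max 1 (|M| / (c / 2 * (T * ((t : ℝ) - s)))) := ⟨_, rfl⟩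
  have hL1 : 1 ≤ L := by rw [hLd]; exact le_max_left _ _
  have hLM : M ≤ L * (c / 2 * (T * ((t : ℝ) - s))) := by
    have h1 : |M| / (c / 2 * (T * ((t : ℝ) - s))) ≤ L := by rw [hLd]; exact le_max_right _ _
    rw [div_le_iff₀ hlen] at h1
    exact (le_abs_self M).trans h1
  -- small displacements
  have hev : ∀ᶠ x : ℝ in 𝓝[>] 0, L ^ (4/3 : ℝ) ≤ ll x := ll_tendsto.eventually_ge_atTop _
  rw [eventually_nhdsWithin_iff, Metric.eventually_nhds_iff] at hev
  obtain ⟨x0, hx0, hx⟩ := hev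
  have hpsi : ∀ x : ℝ, 0 ≤ x → x < x0 → L * psi x ≤ x ^ (7/4 : ℝ) := by
    intro x h0 h1
    rcases h0.eq_or_lt with h2 | h2
    · rw [← h2, psi_zero, mul_zero, Real.zero_rpow (by norm_num)]
    · have h3 := hx (y := x) (by rw [Real.dist_eq, sub_zero, abs_of_pos h2]; exact h1) h2
      have h4 : L ≤ ll x ^ (3/4 : ℝ) := by
        calc L = (L ^ (4/3 : ℝ)) ^ (3/4 : ℝ) := by
              rw [← Real.rpow_mul (by linarith)]
              norm_num
          _ ≤ ll x ^ (3/4 : ℝ) := Real.rpow_le_rpow (by positivity) h3 (by norm_num)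
      have h5 : 0 < ll x ^ (3/4 : ℝ) := lt_of_lt_of_le (by linarith) h4
      unfold psi
      rw [mul_div_assoc', div_le_iff₀ h5, mul_comm]
      exact mul_le_mul_of_nonneg_left h4 (by positivity)
  have huc := CompactSpace.uniformContinuous_of_continuous f.continuous
  rw [Metric.uniformContinuous_iff] at huc
  obtain ⟨d, hd, huc⟩ := huc x0 hx0
  obtain ⟨n, τ, hm, h0, hn, hmesh, hsum⟩ := hL s t hst.le (min η (d / 2))
    (lt_min hη (by positivity)) (c / 2 * (T * ((t : ℝ) - s))) (by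
      have : 0 < c * (T * ((t : ℝ) - s)) := by
        have : 0 < T * ((t : ℝ) - s) := mul_pos hT (by linarith)
        positivity
      linarith)
  refine ⟨n, τ, hm, h0, hn, fun i hi => (hmesh i hi).trans (min_le_left _ _), ?_⟩
  refine hLM.trans ((mul_le_mul_of_nonneg_left hsum (by linarith)).trans ?_)
  rw [Finset.mul_sum]
  refine Finset.sum_le_sum fun i hi => ?_
  refine hpsi _ dist_nonneg (huc ?_)
  have e : dist (τ i) (τ (i + 1)) = |(τ i : ℝ) - τ (i + 1)| := rfl
  have h1 := hmesh i (Finset.mem_range.1 hi)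
  have h2 : (τ i : ℝ) ≤ τ (i + 1) := hm (Nat.le_succ i)
  rw [e, abs_sub_comm, abs_of_nonneg (by linarith)]
  have h3 := h1.trans (min_le_right _ _)
  linarith

end Pool.Agent.R965.EV
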