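import Pool.Agent.Y995.HG.UpS
import Pool.Agent.Y995.TP.Upp
import Pool.Agent.Y41.EV.StmL
import Pool.Agent.R965.EV.P74

/-!
Project EV: almost sure statements (`S_AEV`, `S_ZERO`, `S_FTAE` of `Pool.Agent.Y41.EV.StmL`).
-/

set_option autoImplicit false
set_option linter.unusedVariables false

namespace Pool.Agent.R965.EV

open H974 Finset H342P H984P H984N Pool.Agent.Y995.FS Pool.Agent.Y995.HG Pool.Agent.Y41.EV
open MeasureTheory Filter Topology
open scoped ENNReal NNReal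

theorem aev : S_AEV := by
  intro hopen hsc3 θ K2 A0 hθ hK hA0 R A hA hlat δ hδ hlim μ hμ
  obtain ⟨q1, q2, q3, q4, q5, q6⟩ := hsc3 θ K2 A0 hθ hK hA0
  refine bc R (K := 1) le_rfl
    (B := fun ρ i => BadV R ρ (ww i) (tau θ K2 i) (ell A0 K2 i) (NN i))
    (fun ρ i => hopen R _ _ _ _ _) (fun ρ hρ => ?_) hδ hlim hμ
  have h1 : ∀ᶠ i : ℕ in atTop, 20 ≤ i ∧ 1 ≤ kf K2 i ∧ A0 * (ww i * EE K2 i) ≤ ρ :=
    (eventually_ge_atTop 20).and ((q3.eventually (eventually_ge_atTop 1)).and (q6 ρ hρ))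
  rw [eventually_atTop] at h1
  obtain ⟨j1, hj1⟩ := h1
  refine ⟨A, j1, hA, fun j hj => ?_⟩
  obtain ⟨g1, g2, g3⟩ := hj1 j hj
  obtain ⟨δ1, hδ1, h4⟩ := hlat (kf K2 j) (NN j) (ww j) ρ g2
    (by have := NN_big g1; omega) (ww_pos j)
    (by
      have h5 : ww j ≤ (1/2) ^ 1 := by
        unfold ww
        refine pow_le_pow_of_le_one (by norm_num) (by norm_num) ?_
        have : 1 ≤ j ^ 2 := Nat.one_le_pow _ _ (by omega)
        omega
      simpa using h5) g3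
  refine ⟨δ1, hδ1, fun δ hδ hδ' => ?_⟩
  exact (h4 δ hδ hδ').trans (pr_bound hA g1)

theorem zero : S_ZERO := by
  intro R δ hδ hlim μ hμ
  obtain ⟨⟨c, hc, hL⟩, ⟨C, hC, hU⟩, C2, hC2, hA⟩ := Pool.Agent.Y985.ME.inputs
  obtain ⟨c1, C1, hc1, hC1, hg⟩ := gauge_sets
  obtain ⟨-, -, h3⟩ := final_of hc hC hL hU hC2 hA R
  filter_upwards [h3 δ hδ hlim μ hμ, (hg R).2 δ hδ hlim μ hμ] with p g1 g2
  obtain ⟨hp, g2⟩ := g2
  have h4 := (g2 {u : unitInterval | dep R (p.1 u) ≤ 0}).1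
  have h5 : Measure.mkMetric gm (p.1 '' {u : unitInterval | dep R (p.1 u) ≤ 0}) = 0 := by
    refine measure_mono_null ?_ (mk_bdry R)
    rintro _ ⟨u, hu, rfl⟩
    exact ⟨g1.2.2.2.1 u, hu⟩
  rw [h5, nonpos_iff_eq_zero, mul_eq_zero] at h4
  rcases h4 with h4 | h4
  · rw [ENNReal.ofReal_eq_zero] at h4
    have : 0 < c1 * p.2 := by positivity
    linarith
  · exact h4

/-- Fast times with larger displacements are fast times with smaller displacements. -/
theorem FT_anti {p : C(unitInterval, ℂ) × ℝ} {y y' h : ℝ} (hy : y ≤ y') :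
    FT p y' h ⊆ FT p y h := by
  rintro t ⟨s, h1, h2⟩
  exact ⟨s, h1, lt_of_le_of_lt hy h2⟩

/-- No fast times with large displacements. -/
theorem FT_empty {p : C(unitInterval, ℂ) × ℝ} (hp : 0 < p.2) {y : ℝ} (hy : 0 < y) :
    ∀ᶠ n : ℕ in atTop, FT p y (2 * (1/2) ^ n) = ∅ := by
  have huc := CompactSpace.uniformContinuous_of_continuous p.1.continuous
  rw [Metric.uniformContinuous_iff] at huc
  obtain ⟨d, hd, huc⟩ := huc y hy
  have h1 : Tendsto (fun n : ℕ => 2 * ((1:ℝ)/2) ^ n) atTop (𝓝 (2 * 0)) :=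
    (tendsto_pow_atTop_nhds_zero_of_lt_one (by norm_num) (by norm_num)).const_mul 2
  rw [mul_zero] at h1
  filter_upwards [h1.eventually (ge_mem_nhds (show 0 < p.2 * d by positivity))] with n hn
  rw [Set.eq_empty_iff_forall_notMem]
  rintro t ⟨s, h2, h3⟩
  have h4 : |(s : ℝ) - t| < d := by
    have : p.2 * |(s : ℝ) - t| < p.2 * d := lt_of_lt_of_le h2 hn
    exact lt_of_mul_lt_mul_left this hp.le
  exact absurd h3 (not_lt.2 (huc h4).le)

/-- the bound for the scale `n` and the class `j` -/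
noncomputable def gb (A : ℝ) (q : ℕ × ℕ) : ℝ := A * ((q.1 : ℝ) ^ (-2 : ℝ) * (1/4) ^ q.2)

theorem gb_summable (A : ℝ) : Summable (gb A) := by
  unfold gb
  refine Summable.mul_left _ ?_
  have h1 : Summable (fun n : ℕ => (n : ℝ) ^ (-2 : ℝ)) :=
    Real.summable_nat_rpow.2 (by norm_num)
  have h2 : Summable (fun j : ℕ => ((1:ℝ)/4) ^ j) :=
    summable_geometric_of_lt_one (by norm_num) (by norm_num)
  exact h1.mul_of_nonneg h2 (fun n => by positivity) (fun j => by positivity)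

theorem pow_gb {n : ℕ} (hn : 2 ≤ n) (j : ℕ) :
    (n : ℝ) ^ (-(2 * 2 ^ j) : ℝ) ≤ (n:ℝ) ^ (-2 : ℝ) * (1/4) ^ j := by
  have hn0 : (2:ℝ) ≤ n := by exact_mod_cast hn
  have g1 : (-(2 * 2 ^ j) : ℝ) ≤ -2 + -(2 * (j:ℝ)) := by
    have : (j:ℝ) + 1 ≤ 2 ^ j := by
      have h := Nat.lt_two_pow_self (n := j)
      exact_mod_cast h
    linarith
  have g2 : (n : ℝ) ^ (-(2 * 2 ^ j) : ℝ) ≤ (n : ℝ) ^ (-2 + -(2 * (j:ℝ))) :=
    Real.rpow_le_rpow_of_exponent_le (by linarith) g1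
  refine g2.trans ?_
  rw [Real.rpow_add (by linarith)]
  refine mul_le_mul_of_nonneg_left ?_ (by positivity)
  rw [Real.rpow_neg (by positivity), Real.rpow_mul (by positivity), Real.rpow_natCast,
    Real.rpow_two, ← inv_pow]
  refine pow_le_pow_left₀ (by positivity) ?_ j
  rw [one_div]
  refine inv_anti₀ (by norm_num) ?_
  nlinarith

theorem ftae : S_FTAE := by
  intro hopen a B ha hB
  -- the constant
  obtain ⟨K, hK⟩ : ∃ K : ℝ, K = max 1 (max ((2 * B) ^ (4/7 : ℝ))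
      ((4 * 2 ^ (4/3 : ℝ) / a) ^ (3/7 : ℝ))) := ⟨_, rfl⟩
  have hK1 : 1 ≤ K := by rw [hK]; exact le_max_left _ _
  have hK0 : 0 < K := by linarith
  have hKB : 2 * B ≤ K ^ (7/4 : ℝ) := by
    have h1 : (2 * B) ^ (4/7 : ℝ) ≤ K := by
      rw [hK]; exact (le_max_left _ _).trans (le_max_right _ _)
    have h2 := Real.rpow_le_rpow (by positivity) h1 (show (0:ℝ) ≤ 7/4 by norm_num)
    rw [← Real.rpow_mul (by positivity)] at h2
    norm_num at h2
    norm_num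
    exact h2
  have hKa : 4 * 2 ^ (4/3 : ℝ) / a ≤ K ^ (7/3 : ℝ) := by
    have h1 : (4 * 2 ^ (4/3 : ℝ) / a) ^ (3/7 : ℝ) ≤ K := by
      rw [hK]; exact (le_max_right _ _).trans (le_max_right _ _)
    have h2 := Real.rpow_le_rpow (by positivity) h1 (show (0:ℝ) ≤ 7/3 by norm_num)
    rw [← Real.rpow_mul (by positivity)] at h2
    norm_num at h2
    norm_num
    exact h2
  refine ⟨K, hK0, ?_⟩
  intro R A y0 hA hy0 hft δ hδ hlim μ hμ
  classical
  obtain ⟨E, hE⟩ : ∃ E : ℕ × ℕ → Set X, E = fun q => if 3 ≤ q.1 ∧ yy K q.1 q.2 ≤ y0 then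
    {p : X | (q.1 : ℝ) ^ (-(2 * 2 ^ q.2) : ℝ) <
      p.2 * (volume (FT p (yy K q.1 q.2) (2 * (1/2) ^ q.1))).toReal} else ∅ := ⟨_, rfl⟩
  have hEb : ∀ q : ℕ × ℕ, (μ : Measure X) (E q) ≤ ENNReal.ofReal (gb A q) := by
    rintro ⟨n, j⟩
    rw [hE]
    simp only
    split_ifs with hq
    swap
    · rw [measure_empty]; exact zero_le
    obtain ⟨hn, hy⟩ := hq
    have hn0 : (3:ℝ) ≤ n := by exact_mod_cast hn
    have hl1 : 1 ≤ Real.log n := by
      rw [Real.le_log_iff_exp_le (by linarith)]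
      have := Real.exp_one_lt_d9
      linarith
    have hyp := yy_pos hK0 (show 2 ≤ n by omega) j
    have hpw : (0:ℝ) < (1/2) ^ n := by positivity
    have h2j : (1:ℝ) ≤ 2 ^ j := one_le_pow₀ (by norm_num)
    have hy74 : yy K n j ^ (7/4 : ℝ) =
        (2 ^ j * K) ^ (7/4 : ℝ) * ((1/2) ^ n * Real.log n ^ (3/4 : ℝ)) := by
      rw [yy_eq, yy_pow hK0 n (by positivity)]
    have hcond : B * (2 * (1/2) ^ n) ≤ yy K n j ^ (7/4 : ℝ) := by
      rw [hy74]
      have e1 : K ^ (7/4 : ℝ) ≤ (2 ^ j * K) ^ (7/4 : ℝ) :=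
        Real.rpow_le_rpow hK0.le (by nlinarith) (by norm_num)
      have e2 : 1 ≤ Real.log n ^ (3/4 : ℝ) := Real.one_le_rpow hl1 (by norm_num)
      calc B * (2 * (1/2) ^ n) = (2 * B) * (1/2) ^ n := by ring
        _ ≤ (2 ^ j * K) ^ (7/4 : ℝ) * (1/2) ^ n :=
            mul_le_mul_of_nonneg_right (hKB.trans e1) hpw.le
        _ ≤ (2 ^ j * K) ^ (7/4 : ℝ) * ((1/2) ^ n * Real.log n ^ (3/4 : ℝ)) := by
            refine mul_le_mul_of_nonneg_left ?_ (by positivity)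
            nlinarith
    obtain ⟨b, hb⟩ : ∃ b : ℝ, b = (n : ℝ) ^ (-(2 * 2 ^ j) : ℝ) := ⟨_, rfl⟩
    have hb0 : 0 < b := by rw [hb]; positivity
    obtain ⟨δ1, hδ1, h3⟩ := hft (yy K n j) (2 * (1/2) ^ n) b hyp hy (by positivity) hcond hb0
    -- the probability
    have hpr : A * Real.exp (-(a * (yy K n j ^ (7/4 : ℝ) / (2 * (1/2) ^ n)) ^ (4/3 : ℝ))) / b ≤
        gb A (n, j) := by
      have e1 : (yy K n j ^ (7/4 : ℝ) / (2 * (1/2) ^ n)) ^ (4/3 : ℝ) =
          (2 ^ j * K) ^ (7/3 : ℝ) * Real.log n / 2 ^ (4/3 : ℝ) := by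
        rw [hy74]
        have e2 : (2 ^ j * K) ^ (7/4 : ℝ) * ((1/2) ^ n * Real.log n ^ (3/4 : ℝ)) /
            (2 * (1/2) ^ n) = (2 ^ j * K) ^ (7/4 : ℝ) * Real.log n ^ (3/4 : ℝ) / 2 := by
          field_simp
        rw [e2, Real.div_rpow (by positivity) (by norm_num), Real.mul_rpow (by positivity)
          (by positivity), ← Real.rpow_mul (by positivity), ← Real.rpow_mul (by positivity)]
        norm_num
      have e3 : 4 * 2 ^ j * Real.log n ≤
          a * ((2 ^ j * K) ^ (7/3 : ℝ) * Real.log n / 2 ^ (4/3 : ℝ)) := by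
        have f1 : (2:ℝ) ^ j ≤ ((2:ℝ) ^ j) ^ (7/3 : ℝ) := by
          have := Real.rpow_le_rpow_of_exponent_le h2j (show (1:ℝ) ≤ 7/3 by norm_num)
          rwa [Real.rpow_one] at this
        have f2 : (2 ^ j * K) ^ (7/3 : ℝ) = ((2:ℝ) ^ j) ^ (7/3 : ℝ) * K ^ (7/3 : ℝ) :=
          Real.mul_rpow (by positivity) hK0.le
        have f3 : (0:ℝ) < 2 ^ (4/3 : ℝ) := by positivity
        have f4 : 4 * 2 ^ (4/3 : ℝ) ≤ a * K ^ (7/3 : ℝ) := by
          rw [div_le_iff₀ ha] at hKa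
          linarith
        rw [f2, mul_div_assoc', le_div_iff₀ f3]
        calc 4 * 2 ^ j * Real.log n * 2 ^ (4/3 : ℝ)
            = (2 ^ j * Real.log n) * (4 * 2 ^ (4/3 : ℝ)) := by ring
          _ ≤ (((2:ℝ) ^ j) ^ (7/3 : ℝ) * Real.log n) * (a * K ^ (7/3 : ℝ)) := by
              gcongr
          _ = a * (((2:ℝ) ^ j) ^ (7/3 : ℝ) * K ^ (7/3 : ℝ) * Real.log n) := by ring
      have e4 : Real.exp (-(a * ((2 ^ j * K) ^ (7/3 : ℝ) * Real.log n / 2 ^ (4/3 : ℝ)))) ≤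
          b * b := by
        have f1 : b * b = Real.exp (-(4 * 2 ^ j * Real.log n)) := by
          rw [hb, ← Real.rpow_add (by linarith), Real.rpow_def_of_pos (by linarith)]
          congr 1
          ring
        rw [f1]
        exact Real.exp_le_exp.2 (by linarith)
      rw [e1, div_le_iff₀ hb0]
      have e5 : b ≤ (n:ℝ) ^ (-2 : ℝ) * (1/4) ^ j := by
        rw [hb]
        exact pow_gb (by omega) j
      unfold gb
      simp only
      calc A * Real.exp (-(a * ((2 ^ j * K) ^ (7/3 : ℝ) * Real.log n / 2 ^ (4/3 : ℝ))))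
          ≤ A * (b * b) := mul_le_mul_of_nonneg_left e4 hA.le
        _ = A * b * b := by ring
        _ ≤ A * ((n:ℝ) ^ (-2 : ℝ) * (1/4) ^ j) * b :=
            mul_le_mul_of_nonneg_right (mul_le_mul_of_nonneg_left e5 hA.le) hb0.le
    have hopn := hopen b (yy K n j) (2 * (1/2) ^ n) hb0.le
    have h4 := limit_closed R hδ hlim hμ
      (G := {p : X | b < p.2 * (volume (FT p (yy K n j) (2 * (1/2) ^ n))).toReal}ᶜ)
      hopn.isClosed_compl (ε := gb A (n, j)) (by unfold gb; positivity) hδ1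
      (fun d hd hd' => by
        have := (h3 d hd hd').trans hpr
        simpa only [Set.mem_compl_iff, not_not] using this)
    rw [compl_compl] at h4
    rw [hb] at h4
    exact h4
  have hsum : ∑' q : ℕ × ℕ, (μ : Measure X) (E q) ≠ ⊤ :=
    ne_top_of_le_ne_top (gb_summable A).tsum_ofReal_ne_top (ENNReal.tsum_le_tsum hEb)
  obtain ⟨⟨c, hc, hL⟩, ⟨C, hC, hU⟩, C2, hC2, hAn⟩ := Pool.Agent.Y985.ME.inputs
  obtain ⟨-, -, hfin⟩ := final_of hc hC hL hU hC2 hAn R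
  filter_upwards [ae_finite_setOfPred_mem hsum, hfin δ hδ hlim μ hμ] with p hp hp2
  obtain ⟨n1, hn1⟩ := eventually_atTop.1 (FT_empty hp2.1 hy0)
  obtain ⟨s, hs⟩ : ∃ s : Finset (ℕ × ℕ), s = hp.toFinset := ⟨_, rfl⟩
  refine ⟨max (max 3 n1) (s.sup Prod.fst + 1), fun n hn j => ?_⟩
  have m1 : 3 ≤ n := ((le_max_left _ _).trans (le_max_left _ _)).trans hn
  have m2 : n1 ≤ n := ((le_max_right _ _).trans (le_max_left _ _)).trans hn
  have m3 : s.sup Prod.fst + 1 ≤ n := (le_max_right _ _).trans hn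
  by_cases hy : yy K n j ≤ y0
  · have h1 : p ∉ E (n, j) := by
      intro hmem
      have h2 : (n, j) ∈ s := by
        rw [hs, Set.Finite.mem_toFinset]
        exact hmem
      have h3 : n ≤ s.sup Prod.fst := Finset.le_sup (f := Prod.fst) h2
      omega
    rw [hE] at h1
    simp only [m1, hy, and_self, if_true] at h1
    exact not_lt.1 h1
  · push Not at hy
    have h1 : FT p (yy K n j) (2 * (1/2) ^ n) = ∅ :=
      Set.subset_empty_iff.1 ((FT_anti hy.le).trans (hn1 n m2).le)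
    rw [h1, measure_empty]
    simp only [ENNReal.toReal_zero, mul_zero]
    positivity

end Pool.Agent.R965.EV
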