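import Pool.Agent.R965.EV.Upper

/-!
Project EV: upper bound in the law of the iterated logarithm at almost every time (statement
`S_LILUP` of `Pool.Agent.Y41.EV.StmD`).
-/

set_option autoImplicit false

namespace Pool.Agent.R965.EV

open MeasureTheory Filter Topology Pool.Agent.Y995.HG Pool.Agent.Y41.EV
open scoped ENNReal

theorem phi_zero : phi 0 = 0 := by
  unfold phi
  rw [Real.zero_rpow (by norm_num), zero_mul]

theorem phi_nonneg {x : ℝ} (hx : 0 ≤ x) : 0 ≤ phi x := by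
  have := ll_pos x
  unfold phi
  positivity

/-- `log n` and `ll h` for `h` at most `(1/2)^n` -/
theorem log_le_ll {n : ℕ} (hn : 3 ≤ n) {h : ℝ} (h0 : 0 < h) (h1 : h ≤ (1/2) ^ n) :
    Real.log n ≤ 2 * ll h := by
  have hn0 : (3:ℝ) ≤ n := by exact_mod_cast hn
  have hl1 : 1 ≤ Real.log n := by
    rw [Real.le_log_iff_exp_le (by linarith)]
    have := Real.exp_one_lt_d9
    linarith
  have g1 : (n : ℝ) * Real.log 2 ≤ Real.log (1 / h) := by
    have e1 : (n : ℝ) * Real.log 2 = Real.log (2 ^ n) := by rw [Real.log_pow]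
    rw [e1]
    refine Real.log_le_log (by positivity) ?_
    rw [le_div_iff₀ h0]
    calc (2:ℝ) ^ n * h ≤ 2 ^ n * (1/2) ^ n := mul_le_mul_of_nonneg_left h1 (by positivity)
      _ = 1 := by rw [← mul_pow]; norm_num
  have g2 : (n:ℝ) / 2 ≤ Real.log (1 / h) := by
    have := Real.log_two_gt_d9
    nlinarith
  have g3 : Real.log n - 1 ≤ Real.log (Real.log (1 / h)) := by
    have e2 := Real.log_le_log (by positivity) g2
    rw [Real.log_div (by positivity) (by norm_num)] at e2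
    have := Real.log_two_lt_d9
    linarith
  have g4 : Real.log (Real.log (1 / h)) ≤ ll h := le_max_right _ _
  have g5 := ll_ge h
  linarith

theorem lilup : S_LILUP := by
  intro K hK
  refine ⟨2 * K, by positivity, ?_⟩
  rintro ⟨f, T⟩ hT ⟨n0, hn0⟩
  simp only at hT hn0
  simp only
  -- Borel-Cantelli
  have hvol : ∀ n, n0 ≤ n → volume (FT (f, T) (yy K n 0) (2 * (1/2) ^ n)) ≤
      ENNReal.ofReal ((n : ℝ) ^ (-2 : ℝ) / T) := by
    intro n hn
    have h1 := hn0 n hn 0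
    rw [pow_zero, mul_one] at h1
    rw [← ENNReal.ofReal_toReal (measure_ne_top volume (FT (f, T) (yy K n 0) (2 * (1/2) ^ n)))]
    refine ENNReal.ofReal_le_ofReal ?_
    rw [le_div_iff₀ hT]
    linarith
  have hsum : Summable (fun n : ℕ => (n : ℝ) ^ (-2 : ℝ) / T) :=
    (Real.summable_nat_rpow.2 (by norm_num)).div_const _
  have hbc : ∀ᵐ t : unitInterval, ∀ᶠ n : ℕ in atTop,
      t ∉ FT (f, T) (yy K (n + n0) 0) (2 * (1/2) ^ (n + n0)) := by
    refine ae_eventually_notMem ?_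
    have hs2 : Summable (fun n : ℕ => ((n + n0 : ℕ) : ℝ) ^ (-2 : ℝ) / T) :=
      (summable_nat_add_iff n0).2 hsum
    refine ne_top_of_le_ne_top ?_ (ENNReal.tsum_le_tsum fun n => hvol (n + n0) (by omega))
    exact hs2.tsum_ofReal_ne_top
  filter_upwards [hbc] with t ht
  rw [eventually_atTop] at ht
  obtain ⟨n1, hn1⟩ := ht
  obtain ⟨N, hN⟩ : ∃ N : ℕ, N = n1 + n0 + 3 := ⟨_, rfl⟩
  have hnear : ∀ᶠ s : unitInterval in 𝓝 t, T * |(s : ℝ) - t| < (1/2) ^ N := by
    have hc : Continuous (fun s : unitInterval => T * |(s : ℝ) - t|) := by fun_prop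
    refine hc.continuousAt.eventually_lt continuousAt_const ?_
    simp only [sub_self, abs_zero, mul_zero]
    positivity
  filter_upwards [hnear] with s hs
  rcases eq_or_ne s t with rfl | hne
  · rw [dist_self, sub_self, abs_zero, mul_zero, phi_zero, mul_zero]
  have hst : 0 < |(s : ℝ) - t| := abs_pos.2 (sub_ne_zero.2 fun h => hne (Subtype.ext h))
  have h4 : 0 < T * |(s : ℝ) - t| := mul_pos hT hst
  have h6 : T * |(s : ℝ) - t| ≤ 1 := hs.le.trans (pow_le_one₀ (by norm_num) (by norm_num))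
  obtain ⟨n, g1, g2⟩ := exists_nat_pow_near_of_lt_one h4 h6 (show (0:ℝ) < 1/2 by norm_num)
    (by norm_num)
  have h7 : N ≤ n := by
    by_contra hcon
    push Not at hcon
    have : (1/2 : ℝ) ^ N ≤ (1/2) ^ (n + 1) :=
      pow_le_pow_of_le_one (by norm_num) (by norm_num) hcon
    linarith
  have h8 := hn1 (n - n0) (by omega)
  rw [Nat.sub_add_cancel (by omega)] at h8
  have h9 : dist (f s) (f t) ≤ yy K n 0 := by
    by_contra hcon
    push Not at hcon
    refine h8 ⟨s, ?_, hcon⟩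
    show T * |(s : ℝ) - t| < 2 * (1/2) ^ n
    have : (0:ℝ) < (1/2) ^ n := by positivity
    linarith
  refine h9.trans ?_
  rw [yy_zero]
  have k1 : (((1:ℝ)/2) ^ n) ^ (4/7 : ℝ) ≤
      2 ^ (4/7 : ℝ) * (T * |(s : ℝ) - t|) ^ (4/7 : ℝ) := by
    rw [← Real.mul_rpow (by norm_num) h4.le]
    refine Real.rpow_le_rpow (by positivity) ?_ (by norm_num)
    rw [pow_succ] at g1
    linarith
  have k2 : Real.log n ^ (3/7 : ℝ) ≤
      2 ^ (3/7 : ℝ) * ll (T * |(s : ℝ) - t|) ^ (3/7 : ℝ) := by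
    rw [← Real.mul_rpow (by norm_num) (ll_pos _).le]
    refine Real.rpow_le_rpow (Real.log_natCast_nonneg n) ?_ (by norm_num)
    exact log_le_ll (by omega) h4 g2
  have k3 : (2:ℝ) ^ (4/7 : ℝ) * 2 ^ (3/7 : ℝ) = 2 := by
    rw [← Real.rpow_add (by norm_num)]
    norm_num
  have k4 : 0 ≤ Real.log n ^ (3/7 : ℝ) := by
    have := Real.log_natCast_nonneg n; positivity
  calc K * ((((1:ℝ)/2) ^ n) ^ (4/7 : ℝ) * Real.log n ^ (3/7 : ℝ))
      ≤ K * ((2 ^ (4/7 : ℝ) * (T * |(s : ℝ) - t|) ^ (4/7 : ℝ)) *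
        (2 ^ (3/7 : ℝ) * ll (T * |(s : ℝ) - t|) ^ (3/7 : ℝ))) := by
        refine mul_le_mul_of_nonneg_left ?_ hK.le
        exact mul_le_mul k1 k2 k4 (by positivity)
    _ = K * ((2:ℝ) ^ (4/7 : ℝ) * 2 ^ (3/7 : ℝ)) * ((T * |(s : ℝ) - t|) ^ (4/7 : ℝ) *
        ll (T * |(s : ℝ) - t|) ^ (3/7 : ℝ)) := by ring
    _ = 2 * K * phi (T * |(s : ℝ) - t|) := by
        rw [k3]
        unfold phi
        ring

end Pool.Agent.R965.EV
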