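import Pool.Agent.Y41.EV.StmD

/-!
Project EV: the tree (statements `S_TREE1`, `S_TREE2` of `Pool.Agent.Y41.EV.StmD`).
-/

set_option autoImplicit false

namespace Pool.Agent.R965.EV

open MeasureTheory Filter Topology Pool.Agent.Y995.HG Pool.Agent.Y41.EV

/-- One step of the tree, by induction over the number of pairs. -/
theorem tree_aux (f : C(unitInterval, ℂ)) (η T α w τ ℓ : ℝ) (hη : 0 < η) (hT : 0 < T)
    (hα : 0 ≤ α) (hw : 0 < w) (hℓ : 0 < ℓ) (hτ : τ ≤ η * T)
    (huc : ∀ u v : unitInterval, |(u : ℝ) - v| ≤ η → dist (f u) (f v) ≤ 1) :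
    ∀ (N : ℕ) (s t : unitInterval), s ≤ t →
    (∀ s' t' : unitInterval, s ≤ s' → s' ≤ t' → t' ≤ t → ℓ < T * ((t' : ℝ) - s') →
      VG f η s' t' (α * (T * ((t' : ℝ) - s')))) →
    PairsO f T w τ N s t →
    VG f η s t (α * (T * ((t : ℝ) - s)) - α * ℓ + N * (psi w - α * (τ + ℓ))) := by
  have hzero : ∀ s t : unitInterval, s ≤ t →
      (∀ s' t' : unitInterval, s ≤ s' → s' ≤ t' → t' ≤ t → ℓ < T * ((t' : ℝ) - s') →
      VG f η s' t' (α * (T * ((t' : ℝ) - s')))) →
      VG f η s t (α * (T * ((t : ℝ) - s)) - α * ℓ) := by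
    intro s t hst hV
    rcases lt_or_ge ℓ (T * ((t : ℝ) - s)) with h | h
    · refine (hV s t le_rfl hst le_rfl h).le ?_
      have : 0 ≤ α * ℓ := mul_nonneg hα hℓ.le
      linarith
    · refine (VG.triv f hη hst).le ?_
      have := mul_le_mul_of_nonneg_left h hα
      linarith
  intro N
  induction N with
  | zero =>
    intro s t hst hV _
    have := hzero s t hst hV
    simpa using this
  | succ N ih =>
    intro s t hst hV hP
    obtain ⟨u, v, h1, h2, h3⟩ := hP
    obtain ⟨g1, g2, g3⟩ := h1 (Fin.last N)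
    obtain ⟨k1, k2⟩ := h3 (Fin.last N)
    -- the first part
    have a1 : VG f η s (u (Fin.last N)) (α * (T * ((u (Fin.last N) : ℝ) - s)) - α * ℓ +
        N * (psi w - α * (τ + ℓ))) := by
      refine ih s _ g1 (fun s' t' q1 q2 q3 q4 => hV s' t' q1 q2 (q3.trans (g2.trans g3)) q4) ?_
      refine ⟨fun a => u a.castSucc, fun a => v a.castSucc, fun a => ⟨(h1 _).1, (h1 _).2.1, ?_⟩,
        fun a b hab => h2 _ _ ?_, fun a => h3 _⟩
      · exact h2 _ _ (Fin.castSucc_lt_last a)
      · exact Fin.castSucc_lt_castSucc_iff.2 hab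
    -- the pair
    have huv : ((v (Fin.last N) : ℝ)) - u (Fin.last N) ≤ η := by
      have : T * ((v (Fin.last N) : ℝ) - u (Fin.last N)) ≤ T * η := by linarith
      exact le_of_mul_le_mul_left this hT
    have huv0 : (u (Fin.last N) : ℝ) ≤ v (Fin.last N) := g2
    have a2 : VG f η (u (Fin.last N)) (v (Fin.last N)) (psi w) := by
      refine (VG.single g2 huv).le ?_
      refine psi_mono hw.le k1 (huc _ _ ?_)
      rw [abs_sub_comm, abs_of_nonneg (by linarith)]
      exact huv
    -- the last part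
    have a3 : VG f η (v (Fin.last N)) t (α * (T * ((t : ℝ) - v (Fin.last N))) - α * ℓ) :=
      hzero _ _ g3 fun s' t' q1 q2 q3 q4 => hV s' t' (g1.trans (g2.trans q1)) q2 q3 q4
    refine ((a1.add a2).add a3).le ?_
    have h5 := mul_le_mul_of_nonneg_left k2 hα
    push_cast
    nlinarith

theorem tree1 : S_TREE1 := by
  intro f η T c0 α w τ ℓ N s t hη hT hN hα hα0 hw hℓ hst hc hτ hℓη huc hV hP
  refine (tree_aux f η T α w τ ℓ hη hT hα hw hℓ hτ huc N s t hst hV hP).le ?_
  have hN1 : (1:ℝ) ≤ N := by exact_mod_cast hN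
  have hψ : 0 ≤ psi w := psi_nonneg hw.le
  have h1 : α * (τ + 2 * ℓ) ≤ psi w / 2 := by
    rcases le_or_gt 0 (τ + 2 * ℓ) with h | h
    · have := mul_le_mul_of_nonneg_right hα0 h
      linarith
    · have := mul_nonneg hα (neg_nonneg.2 h.le)
      linarith
  have h2 : α * ℓ ≤ N * (α * ℓ) := by
    have : 0 ≤ α * ℓ := mul_nonneg hα hℓ.le
    nlinarith
  have h3 : (N:ℝ) * (α * (τ + 2 * ℓ)) ≤ N * (psi w / 2) :=
    mul_le_mul_of_nonneg_left h1 (by linarith)
  nlinarith

/-- the midpoint -/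
noncomputable def mid (s t : unitInterval) : unitInterval :=
  ⟨((s : ℝ) + t) / 2, by have := s.2.1; have := t.2.1; linarith,
    by have := s.2.2; have := t.2.2; linarith⟩

theorem tree2 : S_TREE2 := by
  intro f η T c0 N ℓ τ w a i0 I0 hη hT hc0 huc hi hsc hg hP m
  induction m generalizing i0 with
  | zero =>
    intro s t _ hl
    have hst : s ≤ t := by
      have h1 := (hi i0 le_rfl).2.2.1
      have h2 : 0 < T * ((t : ℝ) - s) := h1.trans hl
      have h3 : 0 < (t : ℝ) - s := by
        by_contra hcon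
        push Not at hcon
        have := mul_nonpos_of_nonneg_of_nonpos hT.le hcon
        linarith
      exact (show (s:ℝ) ≤ t by linarith)
    refine (VG.triv f hη hst).le ?_
    simp [hc0.le]
  | succ m ih =>
    obtain ⟨hN, hw, hℓ, ha, hτ, hℓη⟩ := hi i0 le_rfl
    have ih' := ih (i0 + 1) (fun i h => hi i (by omega)) (fun i h => hsc i (by omega))
      (fun i h => hg i (by omega)) (fun i h => hP i (by omega))
    obtain ⟨α, hα⟩ : ∃ α : ℝ, α = min c0 (∑ i ∈ Finset.Ico (i0 + 1) (i0 + 1 + m), a i) :=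
      ⟨_, rfl⟩
    rw [← hα] at ih'
    have hα0 : 0 ≤ α := by
      rw [hα]
      refine le_min hc0.le (Finset.sum_nonneg fun i hh => ?_)
      rw [Finset.mem_Ico] at hh
      exact (hi i (by omega)).2.2.2.1
    have hαc : α ≤ c0 := by rw [hα]; exact min_le_left _ _
    obtain ⟨β, hβ⟩ : ∃ β : ℝ, β = min c0 (∑ i ∈ Finset.Ico i0 (i0 + (m + 1)), a i) := ⟨_, rfl⟩
    have hβα : β ≤ α + a i0 := by
      have e : ∑ i ∈ Finset.Ico i0 (i0 + (m + 1)), a i =
          a i0 + ∑ i ∈ Finset.Ico (i0 + 1) (i0 + 1 + m), a i := by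
        rw [Finset.sum_eq_sum_Ico_succ_bot (by omega)]
        congr 2
        congr 1
        omega
      rw [hβ, hα, e]
      rcases le_total c0 (∑ i ∈ Finset.Ico (i0 + 1) (i0 + 1 + m), a i) with h | h
      · rw [min_eq_left h]
        exact (min_le_left _ _).trans (by linarith)
      · rw [min_eq_right h]
        exact (min_le_right _ _).trans (by linarith)
    have hℓ1 := (hi (i0 + 1) (by omega)).2.2.1
    have hℓη1 := (hi (i0 + 1) (by omega)).2.2.2.2.2
    have hpos : ∀ s t : unitInterval, ℓ i0 < T * ((t : ℝ) - s) → (s : ℝ) < t := by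
      intro s t h
      by_contra hcon
      push Not at hcon
      have := mul_nonpos_of_nonneg_of_nonpos hT.le (sub_nonpos.2 hcon)
      linarith
    -- short pieces
    have hshort : ∀ s t : unitInterval, Set.Icc s t ⊆ I0 → ℓ i0 < T * ((t : ℝ) - s) →
        T * ((t : ℝ) - s) ≤ 2 * ℓ i0 → VG f η s t (β * (T * ((t : ℝ) - s))) := by
      intro s t hI hl hl2
      have hst := hpos s t hl
      have h1 := tree1 f η T c0 α (w i0) (τ i0) (ℓ (i0 + 1)) (N i0) s t hη hT hN hα0 hαc hw hℓ1
        hst.le (hsc i0 le_rfl) hτ hℓη1 huc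
        (fun s' t' q1 q2 q3 q4 => ih' s' t' (fun x hx => hI ⟨q1.trans hx.1, hx.2.trans q3⟩) q4)
        (hP i0 le_rfl s t hI hl)
      refine h1.le ?_
      have h2 := hg i0 le_rfl
      have h3 : a i0 * (T * ((t : ℝ) - s)) ≤ a i0 * (2 * ℓ i0) := mul_le_mul_of_nonneg_left hl2 ha
      have h4 : 0 < T * ((t : ℝ) - s) := hℓ.trans hl
      have h5 := mul_le_mul_of_nonneg_right hβα h4.le
      nlinarith
    -- all pieces
    have hall : ∀ n : ℕ, ∀ s t : unitInterval, Set.Icc s t ⊆ I0 → ℓ i0 < T * ((t : ℝ) - s) →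
        T * ((t : ℝ) - s) ≤ (n + 2) * ℓ i0 → VG f η s t (β * (T * ((t : ℝ) - s))) := by
      intro n
      induction n with
      | zero =>
        intro s t hI hl hl2
        exact hshort s t hI hl (by simpa using hl2)
      | succ n ihn =>
        intro s t hI hl hl2
        rcases le_or_gt (T * ((t : ℝ) - s)) (2 * ℓ i0) with h | h
        · exact hshort s t hI hl h
        · have hst := hpos s t hl
          have e1 : ((mid s t : unitInterval) : ℝ) = ((s : ℝ) + t) / 2 := rfl
          have m1 : s ≤ mid s t := show (s:ℝ) ≤ ((s : ℝ) + t) / 2 by linarith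
          have m2 : mid s t ≤ t := show ((s : ℝ) + t) / 2 ≤ (t:ℝ) by linarith
          have e2 : T * (((mid s t : unitInterval) : ℝ) - s) = T * ((t : ℝ) - s) / 2 := by
            rw [e1]; ring
          have e3 : T * ((t : ℝ) - (mid s t : unitInterval)) = T * ((t : ℝ) - s) / 2 := by
            rw [e1]; ring
          push_cast at hl2
          have hn : T * ((t : ℝ) - s) / 2 ≤ (n + 2) * ℓ i0 := by nlinarith
          have v1 := ihn s (mid s t) (fun x hx => hI ⟨hx.1, hx.2.trans m2⟩)
            (by rw [e2]; linarith) (by rw [e2]; exact hn)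
          have v2 := ihn (mid s t) t (fun x hx => hI ⟨m1.trans hx.1, hx.2⟩)
            (by rw [e3]; linarith) (by rw [e3]; exact hn)
          refine (v1.add v2).le (le_of_eq ?_)
          rw [e2, e3]
          ring
    intro s t hI hl
    rw [← hβ]
    obtain ⟨n, hn⟩ := exists_nat_gt (T * ((t : ℝ) - s) / ℓ i0)
    rw [div_lt_iff₀ hℓ] at hn
    exact hall n s t hI hl (by nlinarith)

end Pool.Agent.R965.EV
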