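import Pool.Agent.R965.EV.Scales
import Pool.Agent.R965.EV.Tree

/-!
Project EV: lower bound (statements `S_LOWBULK`, `S_LOWALL` of `Pool.Agent.Y41.EV.StmD`).
-/

set_option autoImplicit false

namespace Pool.Agent.R965.EV

open MeasureTheory Filter Topology Pool.Agent.Y995.HG Pool.Agent.Y41.EV

theorem VG.mesh {f : C(unitInterval, ℂ)} {η η' : ℝ} {s t : unitInterval} {x : ℝ}
    (h : VG f η' s t x) (hη : η' ≤ η) : VG f η s t x := by
  obtain ⟨n, τ, h1, h2, h3, h4, h5⟩ := h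
  exact ⟨n, τ, h1, h2, h3, fun i hi => (h4 i hi).trans hη, h5⟩

theorem unif (f : C(unitInterval, ℂ)) : ∃ η : ℝ, 0 < η ∧
    ∀ u v : unitInterval, |(u : ℝ) - v| ≤ η → dist (f u) (f v) ≤ 1 := by
  have h := CompactSpace.uniformContinuous_of_continuous f.continuous
  rw [Metric.uniformContinuous_iff] at h
  obtain ⟨d, hd, h1⟩ := h 1 one_pos
  refine ⟨d / 2, by positivity, fun u v huv => (h1 ?_).le⟩
  have : dist u v = |(u : ℝ) - v| := rfl
  rw [this]
  linarith

theorem lowbulk : S_LOWBULK := by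
  intro θ K2 A0 hθ hK hA
  obtain ⟨c0, hc0, hsc⟩ := sc1 θ K2 A0 hθ hK hA
  obtain ⟨q1, q2, q3, q4, q5, -⟩ := sc3 θ K2 A0 hθ hK hA
  refine ⟨c0, hc0, ?_⟩
  intro f T I0 hT hP s t hst hI η hη
  rcases eq_or_lt_of_le hst with h | h
  · subst h
    simpa using VG.refl f η s
  have hst' : (s:ℝ) < t := h
  obtain ⟨η1, hη1, huc⟩ := unif f
  obtain ⟨η', hη'⟩ : ∃ η' : ℝ, η' = min η η1 := ⟨_, rfl⟩
  have hη'0 : 0 < η' := by rw [hη']; exact lt_min hη hη1
  have hηη : η' ≤ η := by rw [hη']; exact min_le_left _ _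
  have hηη1 : η' ≤ η1 := by rw [hη']; exact min_le_right _ _
  have hpos : 0 < η' * T := by positivity
  have hlen : 0 < T * ((t : ℝ) - s) := mul_pos hT (by linarith)
  have hev : ∀ᶠ i : ℕ in atTop, (20 ≤ i ∧ c0 * (2 * tau θ K2 i + 4 * ell A0 K2 (i + 1)) ≤
      psi (ww i)) ∧ (tau θ K2 i ≤ η' * T ∧ ell A0 K2 i ≤ η' * T) ∧
      (0 < ell A0 K2 i ∧ ell A0 K2 i < T * ((t : ℝ) - s)) ∧
      (∀ s t : unitInterval, Set.Icc s t ⊆ I0 →
        ell A0 K2 i < T * ((t : ℝ) - s) → Pairs f T (ww i) (tau θ K2 i) (NN i) s t) := by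
    filter_upwards [eventually_ge_atTop 20, hsc, q2.eventually (ge_mem_nhds hpos),
      q1.eventually (ge_mem_nhds hpos), q5, q1.eventually (gt_mem_nhds hlen), hP] with
      i g1 g2 g3 g4 g5 g6 g7
    exact ⟨⟨g1, g2⟩, ⟨g3, g4⟩, ⟨g5, g6⟩, g7⟩
  rw [eventually_atTop] at hev
  obtain ⟨i0, hi0⟩ := hev
  have hN : ∀ i, i0 ≤ i → 1 ≤ NN i := by
    intro i hi
    have := NN_big (hi0 i hi).1.1
    omega
  have hm : ∀ m : ℕ, VG f η' s t (min c0 (∑ i ∈ Finset.Ico i0 (i0 + m), aa A0 K2 i) *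
      (T * ((t : ℝ) - s))) := by
    intro m
    refine tree2 f η' T c0 NN (ell A0 K2) (tau θ K2) ww (aa A0 K2) i0 I0 hη'0 hT hc0
      (fun u v huv => huc u v (huv.trans hηη1)) ?_ (fun i hi => (hi0 i hi).1.2) ?_ ?_ m s t hI
      (hi0 i0 le_rfl).2.2.1.2
    · intro i hi
      obtain ⟨g1, ⟨g3, g4⟩, ⟨g5, g6⟩, g7⟩ := hi0 i hi
      exact ⟨hN i hi, ww_pos i, g5, aa_nonneg hA i, g3, g4⟩
    · intro i hi
      obtain ⟨g1, ⟨g3, g4⟩, ⟨g5, g6⟩, g7⟩ := hi0 i hi
      unfold aa
      refine le_of_eq ?_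
      field_simp
    · intro i hi s' t' hI' hl
      exact ((hi0 i hi).2.2.2 s' t' hI' hl).sort (ww_pos i)
  obtain ⟨m, hm1⟩ := ((sc2 K2 A0 hK hA i0).eventually_ge_atTop c0).exists
  have h1 := hm m
  rw [min_eq_left hm1] at h1
  refine VG.mesh (h1.le (le_of_eq ?_)) hηη
  ring

/-- Concatenation of many pieces. -/
theorem VG_chain {f : C(unitInterval, ℂ)} {η : ℝ} (r : ℕ → unitInterval) (x : ℕ → ℝ) :
    ∀ n : ℕ, (∀ i < n, VG f η (r i) (r (i + 1)) (x i)) →
      VG f η (r 0) (r n) (∑ i ∈ Finset.range n, x i) := by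
  intro n
  induction n with
  | zero =>
    intro _
    simpa using VG.refl f η (r 0)
  | succ n ih =>
    intro h
    rw [Finset.sum_range_succ]
    exact (ih fun i hi => h i (by omega)).add (h n (by omega))

/-- Equal partitions. -/
theorem equal_partition {s t : unitInterval} (hst : s ≤ t) {n : ℕ} (hn : 1 ≤ n) :
    ∃ r : ℕ → unitInterval, Monotone r ∧ r 0 = s ∧ r n = t ∧
      ∀ i, (r (i + 1) : ℝ) - r i ≤ ((t : ℝ) - s) / n := by
  have hst' : (s : ℝ) ≤ t := hst
  have hn0 : (0 : ℝ) < n := by exact_mod_cast hn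
  obtain ⟨σ, hσ⟩ : ∃ σ : ℕ → ℝ, σ = fun i : ℕ =>
    (s : ℝ) + min ((i : ℝ) / n) 1 * ((t : ℝ) - s) := ⟨_, rfl⟩
  have hd0 : 0 ≤ (t : ℝ) - s := by linarith
  have hmin0 : ∀ i : ℕ, 0 ≤ min ((i : ℝ) / n) 1 := fun i => le_min (by positivity) zero_le_one
  have hσ0 : ∀ i, (s : ℝ) ≤ σ i := by
    intro i
    rw [hσ]
    simp only
    have := mul_nonneg (hmin0 i) hd0
    linarith
  have hσ1 : ∀ i, σ i ≤ t := by
    intro i
    rw [hσ]
    simp only
    have := mul_le_mul_of_nonneg_right (min_le_right ((i : ℝ) / n) 1) hd0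
    linarith
  have hmono : Monotone σ := by
    intro i j hij
    rw [hσ]
    simp only
    have h1 : min ((i : ℝ) / n) 1 ≤ min ((j : ℝ) / n) 1 :=
      min_le_min (div_le_div_of_nonneg_right (by exact_mod_cast hij) hn0.le) le_rfl
    have := mul_le_mul_of_nonneg_right h1 hd0
    linarith
  refine ⟨fun i => ⟨σ i, s.2.1.trans (hσ0 i), (hσ1 i).trans t.2.2⟩, fun i j hij => hmono hij,
    ?_, ?_, ?_⟩
  · apply Subtype.ext
    show σ 0 = s
    rw [hσ]
    simp
  · apply Subtype.ext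
    show σ n = t
    rw [hσ]
    simp only
    rw [div_self hn0.ne', min_self]
    ring
  · intro i
    show σ (i + 1) - σ i ≤ ((t : ℝ) - s) / n
    rw [hσ]
    simp only
    have h1 : min (((i + 1 : ℕ) : ℝ) / n) 1 ≤ min ((i : ℝ) / n) 1 + 1 / n := by
      rcases le_total ((i : ℝ) / n) 1 with h | h
      · rw [min_eq_left h]
        refine (min_le_left _ _).trans (le_of_eq ?_)
        push_cast
        ring
      · rw [min_eq_right h]
        refine (min_le_right _ _).trans ?_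
        have : 0 < 1 / (n : ℝ) := by positivity
        linarith
    have h3 : (min (((i + 1 : ℕ) : ℝ) / n) 1 - min ((i : ℝ) / n) 1) * ((t : ℝ) - s) ≤
        1 / n * ((t : ℝ) - s) := mul_le_mul_of_nonneg_right (by linarith) hd0
    have e : 1 / (n : ℝ) * ((t : ℝ) - s) = ((t : ℝ) - s) / n := by ring
    rw [e] at h3
    linarith

theorem mem_piece (r : ℕ → unitInterval) : ∀ n : ℕ, 1 ≤ n → ∀ u : unitInterval, r 0 ≤ u →
    u ≤ r n → ∃ i < n, r i ≤ u ∧ u ≤ r (i + 1) := by
  intro n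
  induction n with
  | zero => intro h; omega
  | succ n ih =>
    intro _ u h0 h1
    rcases Nat.eq_zero_or_pos n with hn | hn
    · subst hn
      exact ⟨0, by omega, h0, h1⟩
    · rcases le_total u (r n) with h | h
      · obtain ⟨i, hi, h2⟩ := ih hn u h0 h
        exact ⟨i, by omega, h2⟩
      · exact ⟨n, by omega, h, h1⟩

theorem lowall : S_LOWALL := by
  intro f T c0 g hg hT hc0 hz hV s t hst η hη x hx
  have hst' : (s:ℝ) ≤ t := hst
  rcases eq_or_lt_of_le hst with h | h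
  · subst h
    refine (VG.triv f hη le_rfl).le ?_
    simp at hx
    exact hx.le
  have hlt : (s:ℝ) < t := h
  have hcT : 0 < c0 * T := by positivity
  obtain ⟨y, hy⟩ : ∃ y : ℝ, y = x / (c0 * T) := ⟨_, rfl⟩
  have hxy : x = c0 * T * y := by rw [hy]; field_simp
  have hyl : y < (t : ℝ) - s := by
    rw [hxy] at hx
    exact lt_of_mul_lt_mul_left hx hcT.le
  -- a compact set of large measure
  have hE : volume (Set.Icc s t ∩ {u | 0 < g u}) = ENNReal.ofReal ((t : ℝ) - s) := by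
    have h1 : volume (Set.Icc s t ∩ {u | 0 < g u}) = volume (Set.Icc s t) := by
      refine measure_inter_conull' ?_
      refine measure_mono_null ?_ hz
      rintro u ⟨-, hu⟩
      exact not_lt.1 (fun h => hu h : ¬ 0 < g u)
    rw [h1, unitInterval.volume_Icc]
  have hm : MeasurableSet (Set.Icc s t ∩ {u | 0 < g u}) :=
    measurableSet_Icc.inter (isOpen_lt continuous_const hg).measurableSet
  obtain ⟨K, hKE, hKc, hKv⟩ := hm.exists_lt_isCompact (μ := (volume : Measure unitInterval))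
    (r := ENNReal.ofReal y) (by
      rw [hE]
      exact (ENNReal.ofReal_lt_ofReal_iff (by linarith)).2 hyl)
  have hKne : K.Nonempty := by
    rw [Set.nonempty_iff_ne_empty]
    rintro rfl
    rw [measure_empty] at hKv
    exact not_lt_zero hKv
  obtain ⟨u0, hu0, hmin⟩ := hKc.exists_isMinOn hKne hg.continuousOn
  have hm0 : 0 < g u0 := (hKE hu0).2
  obtain ⟨k, hk⟩ := exists_nat_one_div_lt (show 0 < g u0 / 2 by positivity)
  have huc := CompactSpace.uniformContinuous_of_continuous hg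
  rw [Metric.uniformContinuous_iff] at huc
  obtain ⟨d, hd, huc⟩ := huc (g u0 / 2) (by positivity)
  obtain ⟨n, hn⟩ := exists_nat_gt (((t : ℝ) - s) / d)
  have hn0 : (0:ℝ) < n := lt_of_le_of_lt (div_nonneg (by linarith) hd.le) hn
  have hn1 : 1 ≤ n := by
    have : 0 < n := by exact_mod_cast hn0
    omega
  have hnd : ((t : ℝ) - s) / n < d := by
    rw [div_lt_iff₀ hd] at hn
    rw [div_lt_iff₀ hn0]
    linarith
  obtain ⟨r, hr, hr0, hrn, hrd⟩ := equal_partition hst hn1
  classical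
  obtain ⟨P, hP⟩ : ∃ P : ℕ → Prop, P = fun i => (Set.Icc (r i) (r (i + 1)) ∩ K).Nonempty :=
    ⟨_, rfl⟩
  have hchain := VG_chain (f := f) (η := η) r
    (fun i => if P i then c0 * T * ((r (i + 1) : ℝ) - r i) else 0) n (fun i hi => by
      by_cases h : P i
      · simp only [h, if_true]
        refine hV k (r i) (r (i + 1)) (hr (Nat.le_succ i)) (fun u hu => ?_) η hη
        rw [hP] at h
        obtain ⟨v, hv, hvK⟩ := h
        have h1 : g u0 ≤ g v := hmin hvK
        have h2 : dist u v < d := by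
          have e : dist u v = |(u : ℝ) - v| := rfl
          rw [e]
          have a1 : (r i : ℝ) ≤ u := hu.1
          have a2 : (u : ℝ) ≤ r (i + 1) := hu.2
          have a3 : (r i : ℝ) ≤ v := hv.1
          have a4 : (v : ℝ) ≤ r (i + 1) := hv.2
          have a5 := hrd i
          have : |(u : ℝ) - v| ≤ ((t : ℝ) - s) / n := by
            rw [abs_le]
            constructor <;> linarith
          linarith
        have h3 := huc h2
        rw [Real.dist_eq, abs_lt] at h3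
        linarith [h3.1]
      · simp only [h, if_false]
        exact VG.triv f hη (hr (Nat.le_succ i)))
  rw [hr0, hrn] at hchain
  refine hchain.le ?_
  -- the sum
  have hcov : K ⊆ ⋃ i ∈ (Finset.range n).filter P, Set.Icc (r i) (r (i + 1)) := by
    intro u hu
    obtain ⟨i, hi, h1, h2⟩ := mem_piece r n hn1 u (by rw [hr0]; exact (hKE hu).1.1)
      (by rw [hrn]; exact (hKE hu).1.2)
    simp only [Set.mem_iUnion]
    refine ⟨i, Finset.mem_filter.2 ⟨Finset.mem_range.2 hi, ?_⟩, h1, h2⟩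
    rw [hP]
    exact ⟨u, ⟨h1, h2⟩, hu⟩
  have hvol : volume K ≤ ENNReal.ofReal
      (∑ i ∈ (Finset.range n).filter P, ((r (i + 1) : ℝ) - r i)) := by
    refine (measure_mono hcov).trans ((measure_biUnion_finset_le _ _).trans (le_of_eq ?_))
    rw [ENNReal.ofReal_sum_of_nonneg fun i _ => by
      have : (r i : ℝ) ≤ r (i + 1) := hr (Nat.le_succ i)
      linarith]
    exact Finset.sum_congr rfl fun i _ => unitInterval.volume_Icc _ _
  have hlt2 := hKv.trans_le hvol
  have hys : y ≤ ∑ i ∈ (Finset.range n).filter P, ((r (i + 1) : ℝ) - r i) := by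
    by_contra hcon
    push Not at hcon
    exact absurd hlt2 (not_lt.2 (ENNReal.ofReal_le_ofReal hcon.le))
  rw [← Finset.sum_filter, ← Finset.mul_sum, hxy]
  exact mul_le_mul_of_nonneg_left hys hcT.le

end Pool.Agent.R965.EV
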