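import Pool.Agent.Y41.EV.StmD

/-!
Project EV: the scales (statements `S_SC1`, `S_SC2`, `S_SC3` of `Pool.Agent.Y41.EV.StmD`).
-/

set_option autoImplicit false

namespace Pool.Agent.R965.EV

open MeasureTheory Filter Topology Pool.Agent.Y995.HG Pool.Agent.Y41.EV

theorem EE_ge {K2 : ℝ} (hK : 1 ≤ K2) (i : ℕ) : 1 ≤ EE K2 i := by
  unfold EE
  rw [← Real.exp_zero]
  exact Real.exp_le_exp.2 (by positivity)

theorem EE_le {K2 : ℝ} (hK : 1 ≤ K2) {i : ℕ} (hi : 1 ≤ i) : EE K2 i ≤ (i : ℝ) ^ (1/7 : ℝ) := by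
  have hi0 : (0:ℝ) < i := by exact_mod_cast hi
  have hlog : 0 ≤ Real.log i := Real.log_natCast_nonneg i
  unfold EE kf
  have h1 : (⌊Real.log i / (14 * K2)⌋₊ : ℝ) ≤ Real.log i / (14 * K2) :=
    Nat.floor_le (by positivity)
  have h2 : 2 * (K2 * (⌊Real.log i / (14 * K2)⌋₊ : ℝ)) ≤ Real.log i * (1/7) := by
    have h3 : K2 * (⌊Real.log i / (14 * K2)⌋₊ : ℝ) ≤ K2 * (Real.log i / (14 * K2)) :=
      mul_le_mul_of_nonneg_left h1 (by linarith)
    have h4 : K2 * (Real.log i / (14 * K2)) = Real.log i / 14 := by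
      field_simp
    linarith
  rw [Real.rpow_def_of_pos hi0]
  exact Real.exp_le_exp.2 h2

theorem EEp_le {K2 : ℝ} (hK : 1 ≤ K2) {i : ℕ} (hi : 1 ≤ i) :
    EE K2 i ^ (7/4 : ℝ) ≤ (i : ℝ) ^ (1/4 : ℝ) := by
  have h1 : EE K2 i ^ (7/4 : ℝ) ≤ ((i : ℝ) ^ (1/7 : ℝ)) ^ (7/4 : ℝ) :=
    Real.rpow_le_rpow (by linarith [EE_ge hK i]) (EE_le hK hi) (by norm_num)
  rw [← Real.rpow_mul (by positivity)] at h1
  norm_num at h1
  exact h1

theorem EEp_ge {K2 : ℝ} (hK : 1 ≤ K2) (i : ℕ) : 1 ≤ EE K2 i ^ (7/4 : ℝ) :=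
  Real.one_le_rpow (EE_ge hK i) (by norm_num)

theorem ll_ww {i : ℕ} (hi : 3 ≤ i) : ll (ww i) ≤ 4 * Real.log i := by
  have hi0 : (3:ℝ) ≤ i := by exact_mod_cast hi
  have hlogi : 1 ≤ Real.log i := by
    rw [Real.le_log_iff_exp_le (by linarith)]
    have := Real.exp_one_lt_d9
    linarith
  unfold ll ww
  refine max_le (by linarith) ?_
  have h1 : (1:ℝ) / (1/2) ^ (4 * i ^ 2) = 2 ^ (4 * i ^ 2) := by
    rw [one_div, ← inv_pow]; norm_num
  rw [h1, Real.log_pow]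
  have h2 : Real.log 2 ≤ 1 := by
    have := Real.log_two_lt_d9; linarith
  have h2' : 0 < Real.log 2 := Real.log_pos (by norm_num)
  have h3 : ((4 * i ^ 2 : ℕ) : ℝ) * Real.log 2 ≤ (i:ℝ) ^ 4 := by
    push_cast
    have h5 : (4:ℝ) * i ^ 2 * Real.log 2 ≤ 4 * i ^ 2 := by
      have : 0 ≤ 4 * (i:ℝ) ^ 2 := by positivity
      nlinarith
    have h6 : 4 * (i:ℝ) ^ 2 ≤ i ^ 2 * i ^ 2 := by
      have : (4:ℝ) ≤ i ^ 2 := by nlinarith
      have h7 : 0 ≤ (i:ℝ) ^ 2 := by positivity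
      nlinarith
    calc (4:ℝ) * i ^ 2 * Real.log 2 ≤ 4 * i ^ 2 := h5
      _ ≤ i ^ 2 * i ^ 2 := h6
      _ = i ^ 4 := by ring
  have h8 : 0 < ((4 * i ^ 2 : ℕ) : ℝ) * Real.log 2 := by
    have : 0 < 4 * i ^ 2 := by positivity
    have : (0:ℝ) < ((4 * i ^ 2 : ℕ) : ℝ) := by exact_mod_cast this
    positivity
  have h9 := Real.log_le_log h8 h3
  rw [Real.log_pow] at h9
  push_cast at h9 ⊢
  exact h9

theorem psi_ww {i : ℕ} (hi : 3 ≤ i) :
    (1/2 : ℝ) ^ (7 * i ^ 2) / (4 * Real.log i) ^ (3/4 : ℝ) ≤ psi (ww i) := by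
  unfold psi
  rw [ww_pow]
  have h1 := ll_ww hi
  have h2 := ll_pos (ww i)
  exact div_le_div_of_nonneg_left (by positivity) (by positivity)
    (Real.rpow_le_rpow h2.le h1 (by norm_num))

theorem kf_ge {K2 : ℝ} (hK : 1 ≤ K2) {i : ℕ} (hi : 28 * K2 ≤ Real.log i) :
    Real.log i / (28 * K2) ≤ (kf K2 i : ℝ) := by
  unfold kf
  have h1 : Real.log i / (14 * K2) - 1 ≤ (⌊Real.log i / (14 * K2)⌋₊ : ℝ) := by
    have := Nat.lt_floor_add_one (Real.log i / (14 * K2))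
    linarith
  refine le_trans ?_ h1
  have h2 : 1 ≤ Real.log i / (28 * K2) := by rw [le_div_iff₀ (by positivity)]; linarith
  have h3 : Real.log i / (14 * K2) = 2 * (Real.log i / (28 * K2)) := by
    field_simp; ring
  rw [h3]
  linarith

theorem NN_le' (i : ℕ) : (NN i : ℝ) ≤ 2 ^ i := by
  have h1 := NN_le i
  have h2 : (0:ℝ) ≤ NN i := by positivity
  have h3 : (0:ℝ) ≤ ((Nat.sqrt i : ℕ) : ℝ) := by positivity
  nlinarith

theorem ell_eq {A0 K2 : ℝ} (hK : 1 ≤ K2) (i : ℕ) :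
    ell A0 K2 i = A0 * ((1/2) ^ (7 * i ^ 2) * EE K2 i ^ (7/4 : ℝ) * NN i) := by
  unfold ell
  rw [Real.mul_rpow (ww_pos i).le (by linarith [EE_ge hK i]), ww_pow]

theorem ell_le {A0 K2 : ℝ} (hA : 1 ≤ A0) (hK : 1 ≤ K2) {i : ℕ} (hi : 1 ≤ i) :
    ell A0 K2 i ≤ A0 * ((1/2) ^ (7 * i ^ 2) * i * 2 ^ i) := by
  have hi0 : (1:ℝ) ≤ i := by exact_mod_cast hi
  rw [ell_eq hK]
  have h1 := EEp_le hK hi
  have h2 : (i:ℝ) ^ (1/4 : ℝ) ≤ i := by
    have := Real.rpow_le_rpow_of_exponent_le hi0 (show (1/4 : ℝ) ≤ 1 by norm_num)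
    rwa [Real.rpow_one] at this
  have h3 := NN_le' i
  have h4 : 0 ≤ EE K2 i ^ (7/4 : ℝ) := by linarith [EEp_ge hK i]
  have h5 : (1/2 : ℝ) ^ (7 * i ^ 2) * EE K2 i ^ (7/4 : ℝ) ≤ (1/2) ^ (7 * i ^ 2) * i :=
    mul_le_mul_of_nonneg_left (h1.trans h2) (by positivity)
  have h6 := mul_le_mul h5 h3 (by positivity : (0:ℝ) ≤ NN i) (by positivity)
  exact mul_le_mul_of_nonneg_left h6 (by linarith)

theorem sc1 : S_SC1 := by
  intro θ K2 A0 hθ hK hA
  have hA0 : 0 < A0 := by linarith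
  have hK0 : 0 < K2 := by linarith
  obtain ⟨B, hB⟩ : ∃ B : ℝ, B = 2 * θ * (28 * K2) ^ (3/4 : ℝ) + 4 * A0 := ⟨_, rfl⟩
  have hB0 : 0 < B := by rw [hB]; positivity
  refine ⟨1 / (4 ^ (3/4 : ℝ) * B), by positivity, ?_⟩
  have hl : Tendsto (fun i : ℕ => Real.log (i : ℝ)) atTop atTop :=
    Real.tendsto_log_atTop.comp tendsto_natCast_atTop_atTop
  filter_upwards [hl.eventually_ge_atTop (28 * K2), eventually_ge_atTop 3] with i hi1 hi3
  have hi0 : (3:ℝ) ≤ i := by exact_mod_cast hi3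
  have hlog : 0 < Real.log i := by linarith
  have hlogi : Real.log i ≤ i := by
    have := Real.log_le_sub_one_of_pos (show (0:ℝ) < i by linarith); linarith
  have hlog1 : 1 ≤ Real.log i := by linarith
  obtain ⟨y, hy⟩ : ∃ y : ℝ, y = Real.log i ^ (3/4 : ℝ) := ⟨_, rfl⟩
  have hy0 : 0 < y := by rw [hy]; positivity
  have hyi : y ≤ i := by
    rw [hy]
    have := Real.rpow_le_rpow_of_exponent_le hlog1 (show (3/4 : ℝ) ≤ 1 by norm_num)
    rw [Real.rpow_one] at this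
    linarith
  obtain ⟨w, hw⟩ : ∃ w : ℝ, w = (1/2 : ℝ) ^ (7 * i ^ 2) := ⟨_, rfl⟩
  have hw0 : 0 < w := by rw [hw]; positivity
  -- the duration
  have h1 : 2 * tau θ K2 i ≤ 2 * θ * (28 * K2) ^ (3/4 : ℝ) * (w / y) := by
    unfold tau
    rw [ww_pow, ← hw]
    have g1 := kf_ge hK hi1
    have g2 : 0 < Real.log i / (28 * K2) := by positivity
    have g3 : (kf K2 i : ℝ) ^ (-(3/4) : ℝ) ≤ (Real.log i / (28 * K2)) ^ (-(3/4) : ℝ) :=
      Real.rpow_le_rpow_of_nonpos g2 g1 (by norm_num)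
    have g4 : (Real.log i / (28 * K2)) ^ (-(3/4) : ℝ) = (28 * K2) ^ (3/4 : ℝ) / y := by
      rw [Real.rpow_neg g2.le, Real.div_rpow hlog.le (by positivity), hy, inv_div]
    rw [g4] at g3
    have g5 : (kf K2 i : ℝ) ^ (-(3/4) : ℝ) * w ≤ (28 * K2) ^ (3/4 : ℝ) / y * w :=
      mul_le_mul_of_nonneg_right g3 hw0.le
    have g6 : 2 * (θ * ((kf K2 i : ℝ) ^ (-(3/4) : ℝ) * w)) ≤
        2 * (θ * ((28 * K2) ^ (3/4 : ℝ) / y * w)) := by
      have := mul_le_mul_of_nonneg_left g5 hθ.le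
      linarith
    refine g6.trans (le_of_eq ?_)
    ring
  -- the remaining pieces
  have h2 : 4 * ell A0 K2 (i + 1) ≤ 4 * A0 * (w / y) := by
    have g1 := ell_le hA hK (i := i + 1) (by omega)
    have g2 : (1/2 : ℝ) ^ (7 * (i + 1) ^ 2) * ((i + 1 : ℕ) : ℝ) * 2 ^ (i + 1) ≤ w / y := by
      rw [le_div_iff₀ hy0]
      have e1 : (1/2 : ℝ) ^ (7 * (i + 1) ^ 2) = w * ((1/2) ^ (12 * i + 6) * (1/2) ^ (i + 1) * (1/2) ^ i) := by
        rw [hw, ← pow_add, ← pow_add, ← pow_add]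
        congr 1
        ring
      have e2 : (1/2 : ℝ) ^ (i + 1) * 2 ^ (i + 1) = 1 := by
        rw [← mul_pow]; norm_num
      have e3 : ((i + 1 : ℕ) : ℝ) * (1/2) ^ i ≤ 1 := by
        have : ((i + 1 : ℕ) : ℝ) ≤ 2 ^ i := by
          have h := Nat.lt_two_pow_self (n := i)
          exact_mod_cast h
        have h3 : (1/2 : ℝ) ^ i * 2 ^ i = 1 := by rw [← mul_pow]; norm_num
        have h4 : (0:ℝ) < (1/2) ^ i := by positivity
        nlinarith
      have e4 : (1/2 : ℝ) ^ (12 * i + 6) * y ≤ 1 := by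
        have h5 : (i : ℝ) ≤ 2 ^ (12 * i + 6) := by
          have h := Nat.lt_two_pow_self (n := i)
          have h' : 2 ^ i ≤ 2 ^ (12 * i + 6) := Nat.pow_le_pow_right (by norm_num) (by omega)
          exact_mod_cast (h.le.trans h')
        have h3 : (1/2 : ℝ) ^ (12 * i + 6) * 2 ^ (12 * i + 6) = 1 := by
          rw [← mul_pow]; norm_num
        have h4 : (0:ℝ) < (1/2) ^ (12 * i + 6) := by positivity
        nlinarith
      calc (1/2 : ℝ) ^ (7 * (i + 1) ^ 2) * ((i + 1 : ℕ) : ℝ) * 2 ^ (i + 1) * y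
          = w * (((1/2) ^ (12 * i + 6) * y) * ((1/2) ^ (i + 1) * 2 ^ (i + 1)) *
            (((i + 1 : ℕ) : ℝ) * (1/2) ^ i)) := by rw [e1]; ring
        _ ≤ w * 1 := by
          refine mul_le_mul_of_nonneg_left ?_ hw0.le
          rw [e2, mul_one]
          exact mul_le_one₀ e4 (by positivity) e3
        _ = w := mul_one w
    have g3 := mul_le_mul_of_nonneg_left g2 hA0.le
    linarith
  have h3 := psi_ww hi3
  refine le_trans ?_ h3
  rw [Real.mul_rpow (by norm_num) hlog.le, ← hy, ← hw]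
  have h4 : 2 * tau θ K2 i + 4 * ell A0 K2 (i + 1) ≤ B * (w / y) := by
    rw [hB, add_mul]; linarith
  calc 1 / (4 ^ (3/4 : ℝ) * B) * (2 * tau θ K2 i + 4 * ell A0 K2 (i + 1))
      ≤ 1 / (4 ^ (3/4 : ℝ) * B) * (B * (w / y)) := mul_le_mul_of_nonneg_left h4 (by positivity)
    _ = w / (4 ^ (3/4 : ℝ) * y) := by
      field_simp

theorem aa_nonneg {A0 K2 : ℝ} (hA : 1 ≤ A0) (i : ℕ) : 0 ≤ aa A0 K2 i := by
  have hw := ww_pos i
  have hE : 0 < EE K2 i := Real.exp_pos _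
  have : 0 ≤ psi (ww i) := psi_nonneg hw.le
  unfold aa ell
  have : 0 ≤ A0 := by linarith
  positivity

theorem aa_ge {A0 K2 : ℝ} (hA : 1 ≤ A0) (hK : 1 ≤ K2) {i : ℕ} (hi : 20 ≤ i) :
    1 / (16 * A0) * (1 / (i : ℝ)) ≤ aa A0 K2 i := by
  have hA0 : 0 < A0 := by linarith
  have hi0 : (20:ℝ) ≤ i := by exact_mod_cast hi
  have hN : (1:ℝ) ≤ NN i := by
    have := NN_big hi
    have h1 : 1 ≤ NN i := by omega
    exact_mod_cast h1
  have hN0 : (0:ℝ) < NN i := by linarith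
  have hlog0 : 0 < Real.log i := Real.log_pos (by linarith)
  have hlogi : Real.log i ≤ i := by
    have := Real.log_le_sub_one_of_pos (show (0:ℝ) < i by linarith); linarith
  have h1 := psi_ww (i := i) (by omega)
  obtain ⟨w, hw⟩ : ∃ w : ℝ, w = (1/2 : ℝ) ^ (7 * i ^ 2) := ⟨_, rfl⟩
  have hw0 : 0 < w := by rw [hw]; positivity
  have hE0 : 0 < EE K2 i ^ (7/4 : ℝ) := by linarith [EEp_ge hK i]
  have hE := EEp_le hK (i := i) (by omega)
  have e1 : aa A0 K2 i = psi (ww i) / (4 * A0 * (w * EE K2 i ^ (7/4 : ℝ))) := by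
    unfold aa
    rw [ell_eq hK, ← hw]
    field_simp
  rw [e1]
  have h2 : (4 * Real.log i) ^ (3/4 : ℝ) ≤ 4 * (i:ℝ) ^ (3/4 : ℝ) := by
    rw [Real.mul_rpow (by norm_num) hlog0.le]
    have a1 : (4:ℝ) ^ (3/4 : ℝ) ≤ 4 := by
      have := Real.rpow_le_rpow_of_exponent_le (show (1:ℝ) ≤ 4 by norm_num)
        (show (3/4 : ℝ) ≤ 1 by norm_num)
      rwa [Real.rpow_one] at this
    have a2 : Real.log i ^ (3/4 : ℝ) ≤ (i:ℝ) ^ (3/4 : ℝ) :=
      Real.rpow_le_rpow hlog0.le hlogi (by norm_num)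
    exact mul_le_mul a1 a2 (by positivity) (by norm_num)
  have h3 : w / (4 * (i:ℝ) ^ (3/4 : ℝ)) ≤ psi (ww i) := by
    refine le_trans ?_ h1
    rw [← hw]
    exact div_le_div_of_nonneg_left hw0.le (by positivity) h2
  have h4 : 4 * A0 * (w * EE K2 i ^ (7/4 : ℝ)) ≤ 4 * A0 * (w * (i:ℝ) ^ (1/4 : ℝ)) :=
    mul_le_mul_of_nonneg_left (mul_le_mul_of_nonneg_left hE hw0.le) (by positivity)
  have h5 : (i:ℝ) ^ (3/4 : ℝ) * (i:ℝ) ^ (1/4 : ℝ) = i := by
    rw [← Real.rpow_add (by linarith)]; norm_num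
  have h6 : 0 < (i:ℝ) ^ (3/4 : ℝ) := by positivity
  have h7 : 0 < (i:ℝ) ^ (1/4 : ℝ) := by positivity
  calc 1 / (16 * A0) * (1 / (i : ℝ))
      = w / (4 * (i:ℝ) ^ (3/4 : ℝ)) / (4 * A0 * (w * (i:ℝ) ^ (1/4 : ℝ))) := by
        have h8 : 1 / (i : ℝ) = 1 / ((i:ℝ) ^ (3/4 : ℝ) * (i:ℝ) ^ (1/4 : ℝ)) := by rw [h5]
        rw [h8]
        field_simp
        norm_num
    _ ≤ psi (ww i) / (4 * A0 * (w * (i:ℝ) ^ (1/4 : ℝ))) :=
        div_le_div_of_nonneg_right h3 (by positivity)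
    _ ≤ psi (ww i) / (4 * A0 * (w * EE K2 i ^ (7/4 : ℝ))) :=
        div_le_div_of_nonneg_left (psi_nonneg (ww_pos i).le) (by positivity) h4

theorem sc2 : S_SC2 := by
  intro K2 A0 hK hA i0
  have hA0 : 0 < A0 := by linarith
  have e : (fun m : ℕ => ∑ i ∈ Finset.Ico i0 (i0 + m), aa A0 K2 i) =
      fun m : ℕ => ∑ k ∈ Finset.range m, aa A0 K2 (i0 + k) := by
    funext m
    rw [Finset.sum_Ico_eq_sum_range, Nat.add_sub_cancel_left]
  rw [e, ← not_summable_iff_tendsto_nat_atTop_of_nonneg (fun k => aa_nonneg hA _)]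
  intro hs
  have h1 : Summable (fun k : ℕ => aa A0 K2 (i0 + (k + 20))) := by
    have := (summable_nat_add_iff (f := fun k : ℕ => aa A0 K2 (i0 + k)) 20).2 hs
    exact this
  have h2 : Summable (fun k : ℕ => 1 / (16 * A0) * (1 / ((i0 + (k + 20) : ℕ) : ℝ))) :=
    Summable.of_nonneg_of_le (fun k => by positivity)
      (fun k => aa_ge hA hK (i := i0 + (k + 20)) (by omega)) h1
  have h3 : Summable (fun k : ℕ => 1 / ((i0 + (k + 20) : ℕ) : ℝ)) := by
    have := h2.mul_left (16 * A0)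
    refine this.congr fun k => ?_
    field_simp
  have h4 : Summable (fun k : ℕ => 1 / ((k : ℕ) : ℝ)) := by
    rw [← summable_nat_add_iff (i0 + 20)]
    refine h3.congr fun k => ?_
    congr 2
    ring
  exact Real.not_summable_one_div_natCast h4

theorem sc3 : S_SC3 := by
  intro θ K2 A0 hθ hK hA
  have hA0 : 0 < A0 := by linarith
  have hK0 : 0 < K2 := by linarith
  -- `i (1/2) ^ i → 0`
  have hz : Tendsto (fun i : ℕ => (i:ℝ) * (1/2) ^ i) atTop (𝓝 0) :=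
    tendsto_self_mul_const_pow_of_lt_one (by norm_num) (by norm_num)
  have hell : Tendsto (ell A0 K2) atTop (𝓝 0) := by
    have h1 := hz.const_mul A0
    rw [mul_zero] at h1
    refine squeeze_zero' (Eventually.of_forall fun i => ?_) ?_ h1
    · have := ww_pos i
      have hE : 0 < EE K2 i := Real.exp_pos _
      unfold ell
      positivity
    · filter_upwards [eventually_ge_atTop 1] with i hi
      refine (ell_le hA hK hi).trans (mul_le_mul_of_nonneg_left ?_ hA0.le)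
      have e1 : (1/2 : ℝ) ^ (7 * i ^ 2) ≤ (1/2) ^ (i + i) :=
        pow_le_pow_of_le_one (by norm_num) (by norm_num) (by nlinarith)
      have e2 : (1/2 : ℝ) ^ i * 2 ^ i = 1 := by rw [← mul_pow]; norm_num
      calc (1/2 : ℝ) ^ (7 * i ^ 2) * i * 2 ^ i ≤ (1/2) ^ (i + i) * i * 2 ^ i := by gcongr
        _ = i * (1/2) ^ i * ((1/2) ^ i * 2 ^ i) := by rw [pow_add]; ring
        _ = i * (1/2) ^ i := by rw [e2, mul_one]
  have hkf0 : ∀ i : ℕ, (kf K2 i : ℝ) ^ (-(3/4) : ℝ) ≤ 1 := by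
    intro i
    rcases Nat.eq_zero_or_pos (kf K2 i) with h | h
    · rw [h, Nat.cast_zero, Real.zero_rpow (by norm_num)]
      norm_num
    · exact Real.rpow_le_one_of_one_le_of_nonpos (by exact_mod_cast h) (by norm_num)
  have htau0 : ∀ i, 0 ≤ tau θ K2 i := by
    intro i
    have := ww_pos i
    unfold tau
    positivity
  have hww : Tendsto (fun i : ℕ => (1/2 : ℝ) ^ i) atTop (𝓝 0) :=
    tendsto_pow_atTop_nhds_zero_of_lt_one (by norm_num) (by norm_num)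
  refine ⟨hell, ?_, ?_, htau0, ?_, ?_⟩
  · have h1 := hww.const_mul θ
    rw [mul_zero] at h1
    refine squeeze_zero htau0 (fun i => ?_) h1
    unfold tau
    refine mul_le_mul_of_nonneg_left ?_ hθ.le
    rw [ww_pow]
    have e1 : (1/2 : ℝ) ^ (7 * i ^ 2) ≤ (1/2) ^ i :=
      pow_le_pow_of_le_one (by norm_num) (by norm_num) (by nlinarith)
    calc (kf K2 i : ℝ) ^ (-(3/4) : ℝ) * (1/2) ^ (7 * i ^ 2) ≤ 1 * (1/2) ^ i :=
          mul_le_mul (hkf0 i) e1 (by positivity) (by norm_num)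
      _ = (1/2) ^ i := one_mul _
  · have h1 : Tendsto (fun i : ℕ => Real.log (i : ℝ) / (14 * K2)) atTop atTop :=
      (Real.tendsto_log_atTop.comp tendsto_natCast_atTop_atTop).atTop_div_const (by positivity)
    exact tendsto_nat_floor_atTop.comp h1
  · filter_upwards [eventually_ge_atTop 20] with i hi
    have hN : (0:ℝ) < NN i := by
      have := NN_big hi
      have h1 : 0 < NN i := by omega
      exact_mod_cast h1
    have := ww_pos i
    have hE : 0 < EE K2 i := Real.exp_pos _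
    unfold ell
    positivity
  · intro ρ hρ
    have h1 := hz.const_mul A0
    rw [mul_zero] at h1
    filter_upwards [h1.eventually (ge_mem_nhds hρ), eventually_ge_atTop 1] with i hi1 hi
    refine le_trans ?_ hi1
    refine mul_le_mul_of_nonneg_left ?_ hA0.le
    have hi0 : (1:ℝ) ≤ i := by exact_mod_cast hi
    have g1 := EE_le hK hi
    have g2 : (i:ℝ) ^ (1/7 : ℝ) ≤ i := by
      have := Real.rpow_le_rpow_of_exponent_le hi0 (show (1/7 : ℝ) ≤ 1 by norm_num)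
      rwa [Real.rpow_one] at this
    have g3 : ww i ≤ (1/2) ^ i := by
      unfold ww
      exact pow_le_pow_of_le_one (by norm_num) (by norm_num) (by nlinarith)
    have hE : 0 < EE K2 i := Real.exp_pos _
    calc ww i * EE K2 i ≤ (1/2) ^ i * i := mul_le_mul g3 (g1.trans g2) hE.le (by positivity)
      _ = i * (1/2) ^ i := mul_comm _ _

end Pool.Agent.R965.EV
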