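import Pool.Agent.R965.EV.Low

/-!
Project EV: upper bound for the `ψ`-sums (statement `S_UPDET` of `Pool.Agent.Y41.EV.StmD`).
-/

set_option autoImplicit false

namespace Pool.Agent.R965.EV

open MeasureTheory Filter Topology Pool.Agent.Y995.HG Pool.Agent.Y41.EV

theorem yy_zero (K : ℝ) (n : ℕ) :
    yy K n 0 = K * ((((1:ℝ)/2) ^ n) ^ (4/7 : ℝ) * Real.log n ^ (3/7 : ℝ)) := by
  unfold yy
  rw [pow_zero, one_mul]

theorem yy_eq (K : ℝ) (n j : ℕ) : yy K n j = 2 ^ j * yy K n 0 := by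
  rw [yy_zero]
  rfl

theorem yy_nonneg {K : ℝ} (hK : 0 < K) (n j : ℕ) : 0 ≤ yy K n j := by
  have := Real.log_natCast_nonneg n
  unfold yy
  positivity

theorem yy_pos {K : ℝ} (hK : 0 < K) {n : ℕ} (hn : 2 ≤ n) (j : ℕ) : 0 < yy K n j := by
  have hn0 : (2:ℝ) ≤ n := by exact_mod_cast hn
  have : 0 < Real.log n := Real.log_pos (by linarith)
  unfold yy
  positivity

theorem yy_pow {K : ℝ} (hK : 0 < K) (n : ℕ) {c : ℝ} (hc : 0 ≤ c) :
    (c * yy K n 0) ^ (7/4 : ℝ) = (c * K) ^ (7/4 : ℝ) * ((1/2) ^ n * Real.log n ^ (3/4 : ℝ)) := by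
  have hl := Real.log_natCast_nonneg n
  have e1 : ((((1:ℝ)/2) ^ n) ^ (4/7 : ℝ) * Real.log n ^ (3/7 : ℝ)) ^ (7/4 : ℝ) =
      (1/2) ^ n * Real.log n ^ (3/4 : ℝ) := by
    rw [Real.mul_rpow (by positivity) (by positivity), ← Real.rpow_mul (by positivity),
      ← Real.rpow_mul hl]
    norm_num
  rw [yy_zero, ← mul_assoc, Real.mul_rpow (by positivity) (by positivity), e1]

/-- `yy K n 0` is much smaller than `exp (- √n)` -/
theorem yy_exp {K : ℝ} (hK : 0 < K) :
    Tendsto (fun n : ℕ => yy K n 0 * Real.exp (√n)) atTop (𝓝 0) := by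
  have h1 : Tendsto (fun n : ℕ => K * Real.exp 25 *
      ((n : ℝ) ^ (1 : ℝ) * Real.exp (-(3/10) * (n : ℝ)))) atTop (𝓝 0) := by
    have h2 := (tendsto_rpow_mul_exp_neg_mul_atTop_nhds_zero 1 (3/10) (by norm_num)).comp
      (tendsto_natCast_atTop_atTop (R := ℝ))
    have h3 := h2.const_mul (K * Real.exp 25)
    rw [mul_zero] at h3
    exact h3
  refine squeeze_zero' (Eventually.of_forall fun n => ?_) ?_ h1
  · exact mul_nonneg (yy_nonneg hK n 0) (Real.exp_pos _).le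
  · filter_upwards [eventually_ge_atTop 1] with n hn
    have hn0 : (1:ℝ) ≤ n := by exact_mod_cast hn
    have hl := Real.log_natCast_nonneg n
    rw [yy_zero, Real.rpow_one]
    have e1 : Real.log n ^ (3/7 : ℝ) ≤ n := by
      have g1 : Real.log n ≤ n := by
        have := Real.log_le_sub_one_of_pos (show (0:ℝ) < n by linarith); linarith
      calc Real.log n ^ (3/7 : ℝ) ≤ (n:ℝ) ^ (3/7 : ℝ) := Real.rpow_le_rpow hl g1 (by norm_num)
        _ ≤ (n:ℝ) ^ (1 : ℝ) := Real.rpow_le_rpow_of_exponent_le hn0 (by norm_num)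
        _ = n := Real.rpow_one _
    have e2 : Real.exp (√n) ≤ Real.exp 25 * Real.exp ((n:ℝ) / 100) := by
      rw [← Real.exp_add]
      apply Real.exp_le_exp.2
      have g2 : (√n) ^ 2 = n := Real.sq_sqrt (by linarith)
      nlinarith [sq_nonneg (√n / 10 - 5)]
    have e3 : (((1:ℝ)/2) ^ n) ^ (4/7 : ℝ) ≤ Real.exp (-(31/100) * (n:ℝ)) := by
      rw [← Real.rpow_natCast, ← Real.rpow_mul (by norm_num), Real.rpow_def_of_pos (by norm_num)]
      apply Real.exp_le_exp.2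
      have g3 : Real.log (1/2) = - Real.log 2 := by
        rw [one_div, Real.log_inv]
      rw [g3]
      have := Real.log_two_gt_d9
      nlinarith
    calc K * ((((1:ℝ)/2) ^ n) ^ (4/7 : ℝ) * Real.log n ^ (3/7 : ℝ)) * Real.exp (√n)
        ≤ K * (Real.exp (-(31/100) * (n:ℝ)) * n) * (Real.exp 25 * Real.exp ((n:ℝ) / 100)) := by
          gcongr
      _ = K * Real.exp 25 * (n * (Real.exp (-(31/100) * (n:ℝ)) * Real.exp ((n:ℝ) / 100))) := by
          ring
      _ = K * Real.exp 25 * (n * Real.exp (-(3/10) * (n : ℝ))) := by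
          rw [← Real.exp_add]
          congr 3
          ring

theorem ll_yy {K : ℝ} (hK : 0 < K) {c : ℝ} (hc : 0 < c) :
    ∀ᶠ n : ℕ in atTop, c * yy K n 0 ≤ 1 ∧ Real.log n / 2 ≤ ll (c * yy K n 0) := by
  have h1 := (yy_exp hK).const_mul c
  rw [mul_zero] at h1
  filter_upwards [h1.eventually (ge_mem_nhds one_pos), eventually_ge_atTop 2] with n hn hn2
  have hn0 : (2:ℝ) ≤ n := by exact_mod_cast hn2
  have hy := yy_pos hK hn2 0
  have hcy : 0 < c * yy K n 0 := by positivity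
  have hs : 0 < √n := Real.sqrt_pos.2 (by linarith)
  constructor
  · have g1 : 1 ≤ Real.exp (√n) := Real.one_le_exp hs.le
    nlinarith
  · unfold ll
    refine le_trans ?_ (le_max_right _ _)
    have g1 : Real.exp (√n) ≤ 1 / (c * yy K n 0) := by
      rw [le_div_iff₀ hcy]; linarith
    have g2 : √n ≤ Real.log (1 / (c * yy K n 0)) := by
      rw [Real.le_log_iff_exp_le (by positivity)]
      exact g1
    have g3 := Real.log_le_log hs g2
    rw [Real.log_sqrt (by linarith)] at g3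
    exact g3

/-- `ψ` at the scale `n` -/
theorem psi_good {K : ℝ} (hK : 0 < K) {c : ℝ} (hc : 0 < c) :
    ∀ᶠ n : ℕ in atTop, c * yy K n 0 ≤ 1 ∧
      psi (c * yy K n 0) ≤ 2 * (c * K) ^ (7/4 : ℝ) * (1/2) ^ n := by
  filter_upwards [ll_yy hK hc, eventually_ge_atTop 2] with n hn hn2
  refine ⟨hn.1, ?_⟩
  have hn0 : (2:ℝ) ≤ n := by exact_mod_cast hn2
  have hl : 0 < Real.log n := Real.log_pos (by linarith)
  unfold psi
  rw [yy_pow hK n hc.le]
  have g1 : (Real.log n / 2) ^ (3/4 : ℝ) ≤ ll (c * yy K n 0) ^ (3/4 : ℝ) :=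
    Real.rpow_le_rpow (by positivity) hn.2 (by norm_num)
  have g2 : (Real.log n / 2) ^ (3/4 : ℝ) = Real.log n ^ (3/4 : ℝ) / 2 ^ (3/4 : ℝ) :=
    Real.div_rpow hl.le (by norm_num) _
  have g3 : (2:ℝ) ^ (3/4 : ℝ) ≤ 2 := by
    have := Real.rpow_le_rpow_of_exponent_le (show (1:ℝ) ≤ 2 by norm_num)
      (show (3/4 : ℝ) ≤ 1 by norm_num)
    rwa [Real.rpow_one] at this
  have g4 : 0 < Real.log n ^ (3/4 : ℝ) := by positivity
  have g5 : Real.log n ^ (3/4 : ℝ) / 2 ≤ ll (c * yy K n 0) ^ (3/4 : ℝ) := by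
    refine le_trans ?_ g1
    rw [g2]
    exact div_le_div_of_nonneg_left g4.le (by positivity) g3
  have g6 : 0 < ll (c * yy K n 0) ^ (3/4 : ℝ) := by
    have := ll_pos (c * yy K n 0); positivity
  rw [div_le_iff₀ g6]
  have g7 : 0 ≤ 2 * (c * K) ^ (7/4 : ℝ) * (1/2 : ℝ) ^ n := by positivity
  calc (c * K) ^ (7/4 : ℝ) * ((1/2) ^ n * Real.log n ^ (3/4 : ℝ))
      = 2 * (c * K) ^ (7/4 : ℝ) * (1/2) ^ n * (Real.log n ^ (3/4 : ℝ) / 2) := by ring
    _ ≤ _ := mul_le_mul_of_nonneg_left g5 g7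

/-- Lengths of disjoint intervals. -/
theorem sum_len_le (a b : ℕ → unitInterval) (S : Finset ℕ) (hab : ∀ i ∈ S, a i ≤ b i)
    (hd : ∀ i ∈ S, ∀ j ∈ S, i < j → b i ≤ a j) (E : Set unitInterval)
    (hE : ∀ i ∈ S, Set.Icc (a i) (b i) ⊆ E) :
    ∑ i ∈ S, ((b i : ℝ) - a i) ≤ (volume E).toReal := by
  have h1 : volume (⋃ i ∈ S, Set.Ico (a i) (b i)) = ∑ i ∈ S, volume (Set.Ico (a i) (b i)) := by
    refine measure_biUnion_finset ?_ fun i _ => measurableSet_Ico
    intro i hi j hj hij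
    show Disjoint (Set.Ico (a i) (b i)) (Set.Ico (a j) (b j))
    rw [Set.disjoint_left]
    rintro x ⟨x1, x2⟩ ⟨x3, x4⟩
    rcases lt_or_gt_of_ne hij with h | h
    · exact absurd (x2.trans_le (hd i hi j hj h)) (not_lt.2 x3)
    · exact absurd (x4.trans_le (hd j hj i hi h)) (not_lt.2 x1)
  have h2 : (⋃ i ∈ S, Set.Ico (a i) (b i)) ⊆ E := by
    intro x hx
    simp only [Set.mem_iUnion] at hx
    obtain ⟨i, hi, hx⟩ := hx
    exact hE i hi ⟨hx.1, hx.2.le⟩
  have h3 : ∑ i ∈ S, volume (Set.Ico (a i) (b i)) =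
      ENNReal.ofReal (∑ i ∈ S, ((b i : ℝ) - a i)) := by
    rw [ENNReal.ofReal_sum_of_nonneg fun i hi => by
      have : (a i : ℝ) ≤ b i := hab i hi
      linarith]
    exact Finset.sum_congr rfl fun i _ => unitInterval.volume_Ico _ _
  have h4 : ENNReal.ofReal (∑ i ∈ S, ((b i : ℝ) - a i)) ≤ volume E := by
    rw [← h3, ← h1]
    exact measure_mono h2
  exact (ENNReal.ofReal_le_iff_le_toReal (measure_ne_top _ _)).1 h4

/-- the bound for one class -/
noncomputable def Bd (K : ℝ) (q : ℕ × ℕ) : ℝ :=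
  (8 * (4 * K) ^ (7/4 : ℝ)) * ((q.1 : ℝ) ^ (-(3/2) : ℝ) * (1/16) ^ q.2)

theorem Bd_nonneg {K : ℝ} (hK : 0 < K) (q : ℕ × ℕ) : 0 ≤ Bd K q := by
  unfold Bd
  positivity

theorem Bd_summable (K : ℝ) : Summable (Bd K) := by
  unfold Bd
  refine Summable.mul_left _ ?_
  have h1 : Summable (fun n : ℕ => (n : ℝ) ^ (-(3/2) : ℝ)) :=
    Real.summable_nat_rpow.2 (by norm_num)
  have h2 : Summable (fun j : ℕ => ((1:ℝ)/16) ^ j) :=
    summable_geometric_of_lt_one (by norm_num) (by norm_num)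
  exact h1.mul_of_nonneg h2 (fun n => by positivity) (fun j => by positivity)

theorem class_bound {K : ℝ} (hK : 0 < K) {n : ℕ} (hn : 8 ≤ n) (j : ℕ) :
    2 * (4 * 2 ^ j * K) ^ (7/4 : ℝ) * Real.log n ^ (3/4 : ℝ) * (n : ℝ) ^ (-(2 * 2 ^ j) : ℝ) ≤
      Bd K (n, j) := by
  have hn0 : (8:ℝ) ≤ n := by exact_mod_cast hn
  have hl := Real.log_natCast_nonneg n
  have e1 : (4 * 2 ^ j * K) ^ (7/4 : ℝ) ≤ (4 * K) ^ (7/4 : ℝ) * 4 ^ j := by
    have : (4 * 2 ^ j * K : ℝ) = (4 * K) * 2 ^ j := by ring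
    rw [this, Real.mul_rpow (by positivity) (by positivity)]
    refine mul_le_mul_of_nonneg_left ?_ (by positivity)
    have g1 : (1:ℝ) ≤ 2 ^ j := one_le_pow₀ (by norm_num)
    calc ((2:ℝ) ^ j) ^ (7/4 : ℝ) ≤ ((2:ℝ) ^ j) ^ (2 : ℝ) :=
          Real.rpow_le_rpow_of_exponent_le g1 (by norm_num)
      _ = 4 ^ j := by
          rw [Real.rpow_two, ← pow_mul, mul_comm, pow_mul]
          norm_num
  have e2 : Real.log n ^ (3/4 : ℝ) ≤ 2 * (n:ℝ) ^ (1/2 : ℝ) := by
    have g1 : Real.log n ≤ (n:ℝ) ^ (2/3 : ℝ) / (2/3) :=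
      Real.log_le_rpow_div (by positivity) (by norm_num)
    have g2 : (n:ℝ) ^ (2/3 : ℝ) / (2/3) ≤ 2 * (n:ℝ) ^ (2/3 : ℝ) := by
      have : 0 ≤ (n:ℝ) ^ (2/3 : ℝ) := by positivity
      rw [div_le_iff₀ (by norm_num)]
      linarith
    calc Real.log n ^ (3/4 : ℝ) ≤ (2 * (n:ℝ) ^ (2/3 : ℝ)) ^ (3/4 : ℝ) :=
          Real.rpow_le_rpow hl (g1.trans g2) (by norm_num)
      _ = 2 ^ (3/4 : ℝ) * (n:ℝ) ^ (1/2 : ℝ) := by
          rw [Real.mul_rpow (by norm_num) (by positivity), ← Real.rpow_mul (by positivity)]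
          norm_num
      _ ≤ 2 * (n:ℝ) ^ (1/2 : ℝ) := by
          refine mul_le_mul_of_nonneg_right ?_ (by positivity)
          have := Real.rpow_le_rpow_of_exponent_le (show (1:ℝ) ≤ 2 by norm_num)
            (show (3/4 : ℝ) ≤ 1 by norm_num)
          rwa [Real.rpow_one] at this
  have e3 : (n : ℝ) ^ (-(2 * 2 ^ j) : ℝ) ≤ (n:ℝ) ^ (-2 : ℝ) * (1/64) ^ j := by
    have g1 : (-(2 * 2 ^ j) : ℝ) ≤ -2 + -(2 * (j:ℝ)) := by
      have : (j:ℝ) + 1 ≤ 2 ^ j := by
        have h := Nat.lt_two_pow_self (n := j)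
        exact_mod_cast h
      linarith
    have g2 : (n : ℝ) ^ (-(2 * 2 ^ j) : ℝ) ≤ (n : ℝ) ^ (-2 + -(2 * (j:ℝ))) :=
      Real.rpow_le_rpow_of_exponent_le (by linarith) g1
    refine g2.trans ?_
    rw [Real.rpow_add (by linarith)]
    refine mul_le_mul_of_nonneg_left ?_ (by positivity)
    rw [Real.rpow_neg (by positivity), Real.rpow_mul (by positivity), Real.rpow_natCast,
      Real.rpow_two, ← inv_pow]
    refine pow_le_pow_left₀ (by positivity) ?_ j
    rw [one_div]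
    refine inv_anti₀ (by norm_num) ?_
    nlinarith
  have e4 : (n:ℝ) ^ (1/2 : ℝ) * (n:ℝ) ^ (-2 : ℝ) = (n:ℝ) ^ (-(3/2) : ℝ) := by
    rw [← Real.rpow_add (by linarith)]
    norm_num
  have e5 : (4:ℝ) ^ j * (1/64) ^ j = (1/16) ^ j := by
    rw [← mul_pow]; norm_num
  have p1 : 0 ≤ (n:ℝ) ^ (1/2 : ℝ) := by positivity
  calc 2 * (4 * 2 ^ j * K) ^ (7/4 : ℝ) * Real.log n ^ (3/4 : ℝ) * (n : ℝ) ^ (-(2 * 2 ^ j) : ℝ)
      ≤ 2 * ((4 * K) ^ (7/4 : ℝ) * 4 ^ j) * (2 * (n:ℝ) ^ (1/2 : ℝ)) *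
        ((n:ℝ) ^ (-2 : ℝ) * (1/64) ^ j) := by gcongr
    _ = (4 * (4 * K) ^ (7/4 : ℝ)) * (((n:ℝ) ^ (1/2 : ℝ) * (n:ℝ) ^ (-2 : ℝ)) *
        (4 ^ j * (1/64) ^ j)) := by ring
    _ = (4 * (4 * K) ^ (7/4 : ℝ)) * ((n:ℝ) ^ (-(3/2) : ℝ) * (1/16) ^ j) := by rw [e4, e5]
    _ ≤ (8 * (4 * K) ^ (7/4 : ℝ)) * ((n:ℝ) ^ (-(3/2) : ℝ) * (1/16) ^ j) := by
        refine mul_le_mul_of_nonneg_right ?_ (by positivity)
        have : 0 ≤ (4 * K) ^ (7/4 : ℝ) := by positivity
        linarith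

/-- powers of two next to a number -/
theorem near_pow {z : ℝ} (hz : 1 < z) : ∃ j : ℕ, (2:ℝ) ^ j < z ∧ z ≤ 2 ^ (j + 1) := by
  obtain ⟨m, h1, h2⟩ := exists_nat_pow_near hz.le (show (1:ℝ) < 2 by norm_num)
  rcases h1.lt_or_eq with h | h
  · exact ⟨m, h, h2.le⟩
  · rcases Nat.eq_zero_or_pos m with hm | hm
    · subst hm
      rw [pow_zero] at h
      linarith
    · refine ⟨m - 1, ?_, ?_⟩
      · rw [← h]
        exact pow_lt_pow_right₀ (by norm_num) (by omega)
      · rw [Nat.sub_add_cancel hm, h]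

theorem updet : S_UPDET := by
  intro K hK
  refine ⟨4 * (2 * K) ^ (7/4 : ℝ), by positivity, ?_⟩
  rintro ⟨f, T⟩ hT ⟨n0, hn0⟩ ε hε
  simp only at hT
  obtain ⟨s0, hs0⟩ := summable_iff_vanishing_norm.1 (Bd_summable K) ε hε
  have hev := psi_good hK (c := 2) (by norm_num)
  rw [eventually_atTop] at hev
  obtain ⟨n2, hn2⟩ := hev
  obtain ⟨n1, hn1⟩ : ∃ n1 : ℕ, n1 = max (max n0 n2) (max 8 (s0.sup Prod.fst + 1)) := ⟨_, rfl⟩
  have m0 : n0 ≤ n1 := by rw [hn1]; exact (le_max_left _ _).trans (le_max_left _ _)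
  have m2 : n2 ≤ n1 := by rw [hn1]; exact (le_max_right _ _).trans (le_max_left _ _)
  have m8 : 8 ≤ n1 := by rw [hn1]; exact (le_max_left _ _).trans (le_max_right _ _)
  have ms : s0.sup Prod.fst + 1 ≤ n1 := by
    rw [hn1]; exact (le_max_right _ _).trans (le_max_right _ _)
  refine ⟨(1/2) ^ n1 / T, by positivity, ?_⟩
  intro N a b hab hdis
  classical
  -- levels and classes
  have hlev : ∀ i : ℕ, ∃ q : ℕ × ℕ, i < N → a i ≠ b i →
      (n1 ≤ q.1 ∧ (1/2 : ℝ) ^ (q.1 + 1) < T * ((b i : ℝ) - a i) ∧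
        T * ((b i : ℝ) - a i) ≤ (1/2) ^ q.1) ∧
      (2 * yy K q.1 0 < dist (f (a i)) (f (b i)) → 2 * yy K q.1 q.2 < dist (f (a i)) (f (b i)) ∧
        dist (f (a i)) (f (b i)) ≤ 2 * yy K q.1 (q.2 + 1)) := by
    intro i
    by_cases hi : i < N
    swap
    · exact ⟨(0, 0), fun h => absurd h hi⟩
    by_cases hne : a i = b i
    · exact ⟨(0, 0), fun _ h => absurd hne h⟩
    obtain ⟨h1, h2⟩ := hab i hi
    have h3 : (a i : ℝ) < b i := lt_of_le_of_ne h1 (fun h => hne (Subtype.ext h))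
    have h4 : 0 < T * ((b i : ℝ) - a i) := mul_pos hT (by linarith)
    have h5 : T * ((b i : ℝ) - a i) ≤ (1/2) ^ n1 := by
      have := mul_le_mul_of_nonneg_left h2 hT.le
      rwa [mul_div_cancel₀ _ hT.ne'] at this
    have h6 : T * ((b i : ℝ) - a i) ≤ 1 := h5.trans (pow_le_one₀ (by norm_num) (by norm_num))
    obtain ⟨n, g1, g2⟩ := exists_nat_pow_near_of_lt_one h4 h6 (show (0:ℝ) < 1/2 by norm_num)
      (by norm_num)
    have h7 : n1 ≤ n := by
      by_contra hcon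
      push Not at hcon
      have : (1/2 : ℝ) ^ n1 ≤ (1/2) ^ (n + 1) :=
        pow_le_pow_of_le_one (by norm_num) (by norm_num) hcon
      linarith
    have hy : 0 < yy K n 0 := yy_pos hK (by omega) 0
    by_cases hbig : 2 * yy K n 0 < dist (f (a i)) (f (b i))
    · obtain ⟨j, j1, j2⟩ := near_pow (z := dist (f (a i)) (f (b i)) / (2 * yy K n 0)) (by
        rw [lt_div_iff₀ (by positivity)]; linarith)
      rw [lt_div_iff₀ (by positivity)] at j1
      rw [div_le_iff₀ (by positivity)] at j2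
      refine ⟨(n, j), fun _ _ => ⟨⟨h7, g1, g2⟩, fun _ => ⟨?_, ?_⟩⟩⟩
      · show 2 * yy K n j < _
        rw [yy_eq]
        linarith
      · show _ ≤ 2 * yy K n (j + 1)
        rw [yy_eq]
        linarith
    · exact ⟨(n, 0), fun _ _ => ⟨⟨h7, g1, g2⟩, fun h => absurd h hbig⟩⟩
  choose q hq using hlev
  -- good and bad intervals
  obtain ⟨G, hG⟩ : ∃ G : Finset ℕ, G = (Finset.range N).filter (fun i =>
    a i = b i ∨ dist (f (a i)) (f (b i)) ≤ 2 * yy K (q i).1 0) := ⟨_, rfl⟩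
  obtain ⟨B, hB⟩ : ∃ B : Finset ℕ, B = (Finset.range N).filter (fun i =>
    ¬ (a i = b i ∨ dist (f (a i)) (f (b i)) ≤ 2 * yy K (q i).1 0)) := ⟨_, rfl⟩
  have hsplit : ∑ i ∈ Finset.range N, psi (dist (f (a i)) (f (b i))) =
      ∑ i ∈ G, psi (dist (f (a i)) (f (b i))) + ∑ i ∈ B, psi (dist (f (a i)) (f (b i))) := by
    rw [hG, hB, Finset.sum_filter_add_sum_filter_not]
  have hgood : ∑ i ∈ G, psi (dist (f (a i)) (f (b i))) ≤
      4 * (2 * K) ^ (7/4 : ℝ) * T * ∑ i ∈ Finset.range N, ((b i : ℝ) - a i) := by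
    have h1 : ∀ i ∈ G, psi (dist (f (a i)) (f (b i))) ≤
        4 * (2 * K) ^ (7/4 : ℝ) * T * ((b i : ℝ) - a i) := by
      intro i hi
      rw [hG, Finset.mem_filter, Finset.mem_range] at hi
      obtain ⟨hiN, hi⟩ := hi
      have hab0 : (a i : ℝ) ≤ b i := (hab i hiN).1
      by_cases hne : a i = b i
      · rw [hne, dist_self, psi_zero, sub_self, mul_zero]
      · obtain ⟨⟨g0, g1, g2⟩, -⟩ := hq i hiN hne
        have hle := hi.resolve_left hne
        obtain ⟨k1, k2⟩ := hn2 (q i).1 (m2.trans g0)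
        have h3 : psi (dist (f (a i)) (f (b i))) ≤ psi (2 * yy K (q i).1 0) :=
          psi_mono dist_nonneg hle k1
        refine h3.trans (k2.trans ?_)
        have h4 : (1/2 : ℝ) ^ (q i).1 ≤ 2 * (T * ((b i : ℝ) - a i)) := by
          rw [pow_succ] at g1
          linarith
        have h5 : 0 ≤ 2 * (2 * K) ^ (7/4 : ℝ) := by positivity
        have h6 := mul_le_mul_of_nonneg_left h4 h5
        linarith
    refine (Finset.sum_le_sum h1).trans ?_
    rw [← Finset.mul_sum]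
    refine mul_le_mul_of_nonneg_left ?_ (by positivity)
    refine Finset.sum_le_sum_of_subset_of_nonneg (by rw [hG]; exact Finset.filter_subset _ _) ?_
    intro i hi _
    have : (a i : ℝ) ≤ b i := (hab i (Finset.mem_range.1 hi)).1
    linarith
  have hBmem : ∀ i ∈ B, i < N ∧ a i ≠ b i ∧ 2 * yy K (q i).1 0 < dist (f (a i)) (f (b i)) := by
    intro i hi
    rw [hB, Finset.mem_filter, Finset.mem_range, not_or, not_le] at hi
    exact ⟨hi.1, hi.2.1, hi.2.2⟩
  have hbad : ∑ i ∈ B, psi (dist (f (a i)) (f (b i))) ≤ ε := by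
    have h1 : ∑ i ∈ B, psi (dist (f (a i)) (f (b i))) =
        ∑ c ∈ B.image q, ∑ i ∈ B.filter (fun i => q i = c), psi (dist (f (a i)) (f (b i))) :=
      (Finset.sum_fiberwise_of_maps_to (fun i hi => Finset.mem_image_of_mem q hi) _).symm
    have h2 : ∀ c ∈ B.image q, ∑ i ∈ B.filter (fun i => q i = c),
        psi (dist (f (a i)) (f (b i))) ≤ Bd K c := by
      rintro ⟨n, j⟩ hc
      obtain ⟨i1, hi1, hi1c⟩ := Finset.mem_image.1 hc
      have hn1' : n1 ≤ n := by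
        obtain ⟨t1, t2, -⟩ := hBmem i1 hi1
        have := (hq i1 t1 t2).1.1
        rw [hi1c] at this
        exact this
      -- total length of the class
      have hlen : ∑ i ∈ B.filter (fun i => q i = (n, j)), ((b i : ℝ) - a i) ≤
          (volume (FT (f, T) (yy K n j) (2 * (1/2) ^ n))).toReal := by
        refine sum_len_le a b _ ?_ ?_ _ ?_
        · intro i hi
          exact (hab i (hBmem i (Finset.mem_filter.1 hi).1).1).1
        · intro i hi i' hi' hii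
          exact hdis i i' hii (hBmem i' (Finset.mem_filter.1 hi').1).1
        · intro i hi t ht
          obtain ⟨hiB, hic⟩ := Finset.mem_filter.1 hi
          obtain ⟨t1, t2, t3⟩ := hBmem i hiB
          obtain ⟨⟨k0, k1, k2⟩, k3⟩ := hq i t1 t2
          obtain ⟨k4, -⟩ := k3 t3
          rw [hic] at k2 k4
          simp only at k2 k4
          have r1 : (a i : ℝ) ≤ t := ht.1
          have r2 : (t : ℝ) ≤ b i := ht.2
          have hpow : (0:ℝ) < (1/2) ^ n := by positivity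
          rcases lt_or_ge (yy K n j) (dist (f (a i)) (f t)) with h | h
          · refine ⟨a i, ?_, h⟩
            show T * |(a i : ℝ) - t| < 2 * (1/2) ^ n
            rw [abs_sub_comm, abs_of_nonneg (by linarith)]
            have : T * ((t : ℝ) - a i) ≤ T * ((b i : ℝ) - a i) :=
              mul_le_mul_of_nonneg_left (by linarith) hT.le
            linarith
          · refine ⟨b i, ?_, ?_⟩
            · show T * |(b i : ℝ) - t| < 2 * (1/2) ^ n
              rw [abs_of_nonneg (by linarith)]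
              have : T * ((b i : ℝ) - t) ≤ T * ((b i : ℝ) - a i) :=
                mul_le_mul_of_nonneg_left (by linarith) hT.le
              linarith
            · show yy K n j < dist (f (b i)) (f t)
              have h5 := dist_triangle (f (a i)) (f t) (f (b i))
              rw [dist_comm (f t)] at h5
              linarith
      have hT2 := hn0 n (m0.trans hn1') j
      simp only at hT2
      -- the sum over the class
      have h3 : ∀ i ∈ B.filter (fun i => q i = (n, j)), psi (dist (f (a i)) (f (b i))) ≤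
          2 * (4 * 2 ^ j * K) ^ (7/4 : ℝ) * Real.log n ^ (3/4 : ℝ) *
            (T * ((b i : ℝ) - a i)) := by
        intro i hi
        obtain ⟨hiB, hic⟩ := Finset.mem_filter.1 hi
        obtain ⟨t1, t2, t3⟩ := hBmem i hiB
        obtain ⟨⟨k0, k1, k2⟩, k3⟩ := hq i t1 t2
        obtain ⟨-, k4⟩ := k3 t3
        rw [hic] at k1 k4
        simp only at k1 k4
        have g1 : 2 * yy K n (j + 1) = (4 * 2 ^ j) * yy K n 0 := by
          rw [yy_eq, pow_succ]; ring
        rw [g1] at k4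
        have g2 : psi (dist (f (a i)) (f (b i))) ≤
            ((4 * 2 ^ j) * yy K n 0) ^ (7/4 : ℝ) :=
          (psi_le dist_nonneg).trans (Real.rpow_le_rpow dist_nonneg k4 (by norm_num))
        rw [yy_pow hK n (by positivity)] at g2
        refine g2.trans ?_
        have g3 : (1/2 : ℝ) ^ n ≤ 2 * (T * ((b i : ℝ) - a i)) := by
          rw [pow_succ] at k1
          linarith
        have g4 : 0 ≤ Real.log n ^ (3/4 : ℝ) := by
          have := Real.log_natCast_nonneg n; positivity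
        have g5 : 0 ≤ (4 * 2 ^ j * K) ^ (7/4 : ℝ) := by positivity
        have g6 : (4 * 2 ^ j * K) ^ (7/4 : ℝ) * ((1/2) ^ n * Real.log n ^ (3/4 : ℝ)) ≤
            (4 * 2 ^ j * K) ^ (7/4 : ℝ) * ((2 * (T * ((b i : ℝ) - a i))) *
              Real.log n ^ (3/4 : ℝ)) :=
          mul_le_mul_of_nonneg_left (mul_le_mul_of_nonneg_right g3 g4) g5
        refine g6.trans (le_of_eq ?_)
        ring
      refine (Finset.sum_le_sum h3).trans ?_
      rw [← Finset.mul_sum, ← Finset.mul_sum]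
      refine le_trans ?_ (class_bound hK (m8.trans hn1') j)
      refine mul_le_mul_of_nonneg_left ?_ (by
        have := Real.log_natCast_nonneg n; positivity)
      exact (mul_le_mul_of_nonneg_left hlen hT.le).trans hT2
    rw [h1]
    refine (Finset.sum_le_sum h2).trans ?_
    have h3 := hs0 (B.image q) (by
      rw [Finset.disjoint_left]
      intro c hc hcs
      obtain ⟨i, hi, rfl⟩ := Finset.mem_image.1 hc
      obtain ⟨t1, t2, -⟩ := hBmem i hi
      have g1 := (hq i t1 t2).1.1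
      have g2 : (q i).1 ≤ s0.sup Prod.fst := Finset.le_sup (f := Prod.fst) hcs
      omega)
    rw [Real.norm_eq_abs] at h3
    exact (le_abs_self _).trans h3.le
  rw [hsplit]
  exact add_le_add hgood hbad

end Pool.Agent.R965.EV
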